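import Pool.Agent.Helper6.Gaps.Low

set_option autoImplicit false
open Filter Topology Finset
open scoped BoundedContinuousFunction

/-! Lower bound for the iterated mean of four points: averaging. -/

namespace Pool.Agent.Helper6.Gaps

open Pool.Agent.W634.BQ Pool.Agent.W505.BQ Pool.Agent.W27.FB Pool.Agent.W142.TF
open Pool.Agent.W25.TF.Low (Dd Dd_bd lemB It_prod prs prs_card mem_prs FP_bd)

/-- the shifts -/
def sz (z : Fin 4 → ℕ) (j : ℕ) : ℤ := if h : j < 4 then (z ⟨j, h⟩ : ℤ) else 0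

/-- the admitted error -/
noncomputable def th (c : ℝ) : ℝ := (c / 16) ^ 2 * (c / 2)

theorem cls1 (x : ℤ) : cls 1 0 x = 1 := Pool.Agent.W681.TF.cls_mem (by simp)

/-- the weight of four points -/
noncomputable def FF (P' : ℤ →ᵇ ℝ) : (ℕ → ℤ) → ℝ := FP (fun _ => cls 1 0) (fun _ => P') (fun _ _ => 1) 4

theorem FF_bd {P' : ℤ →ᵇ ℝ} (hP' : ∀ x, 0 ≤ P' x ∧ P' x ≤ 1) (a : ℕ → ℤ) : 0 ≤ FF P' a ∧ FF P' a ≤ 1 :=
  FP_bd (fun _ x => ind_01 _ x) (fun _ _ x => hP' x) a

/-- the pointwise lower bound -/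
theorem point {P P' : ℤ →ᵇ ℝ} (hP : ∀ n, 0 ≤ P n ∧ P n ≤ 1) (hP' : ∀ n, 0 ≤ P' n ∧ P' n ≤ 1) {c δ : ℝ}
    (hc : 0 < c) (hδ : δ = c / 64) {N : ℕ} {t : ℤ → ℕ} (hN : Period P δ N t) {m : (ℤ →ᵇ ℝ) →ₗ[ℝ] ℝ}
    (hm : IsMean m) (h1 : 3 / 5 + 2 * c ≤ m P) (h3 : 2 * c ≤ m (cls 3 0 * P)) (a : ℕ → ℤ) :
    (c / 8) ^ 6 * (1 + -(1 / (th c * N)) * ∑ x ∈ prs, Dd ((P' - P) * (P' - P)) 1 1 N (a x.2 - a x.1)) ≤
    ∑ z ∈ Fintype.piFinset (fun _ : Fin 4 => range N), FF P' (a + sz z) := by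
  have hth : 0 < th c := by unfold th; positivity
  have hN0 : (0 : ℝ) < N := by exact_mod_cast hN.pos
  have hF := fun b => FF_bd hP' b
  have hsum0 : 0 ≤ ∑ z ∈ Fintype.piFinset (fun _ : Fin 4 => range N), FF P' (a + sz z) :=
    sum_nonneg fun z _ => (hF _).1
  have hD0 : ∀ x ∈ prs, 0 ≤ Dd ((P' - P) * (P' - P)) 1 1 N (a x.2 - a x.1) := by
    intro x _
    unfold Dd
    refine sum_nonneg fun z _ => add_nonneg ?_ ?_ <;>
    · rw [BoundedContinuousFunction.coe_mul, Pi.mul_apply]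
      exact mul_self_nonneg _
  by_cases hD : ∀ x ∈ prs, Dd ((P' - P) * (P' - P)) 1 1 N (a x.2 - a x.1) ≤ th c * N
  · obtain ⟨z, hz, hz2⟩ := model (P' := P') hP hc hδ hN hm h1 h3 a (fun i j hij hj => by
      have := hD (i, j) (mem_prs.2 ⟨hij, hj⟩)
      unfold th at this
      exact this)
    have hmem : (fun i : Fin 4 => z i) ∈ Fintype.piFinset (fun _ : Fin 4 => range N) := by
      rw [Fintype.mem_piFinset]
      exact fun i => mem_range.2 (hz i)
    have h5 : (c / 8) ^ 6 ≤ FF P' (a + sz (fun i : Fin 4 => z i)) := by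
      unfold FF FP
      have e1 : (c / 8) ^ 6 = ∏ j ∈ range 4, ((1 : ℝ) * ∏ _i ∈ range j, (c / 8)) := by
        simp only [prod_range_succ, prod_range_zero]
        ring
      rw [e1]
      refine prod_le_prod (fun j _ => by positivity) fun j hj => ?_
      have hj := mem_range.1 hj
      have hsz : ∀ i, i < 4 → sz (fun i : Fin 4 => z i) i = z i := by
        intro i hi
        unfold sz
        rw [dif_pos hi]
      refine mul_le_mul ?_ ?_ (prod_nonneg fun _ _ => by positivity) ?_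
      · rw [cls1]
      · refine prod_le_prod (fun _ _ => by positivity) fun i hi => ?_
        have hi := mem_range.1 hi
        have h6 := hz2 i j hi hj
        have e2 : (a + sz (fun i : Fin 4 => z i)) j - ((1 : ℕ) : ℤ) * (a + sz (fun i : Fin 4 => z i)) i =
            (a j + z j) - (a i + z i) := by
          rw [Pi.add_apply, Pi.add_apply, hsz j hj, hsz i (by omega)]
          push_cast
          ring
        rw [e2]
        exact h6
      · rw [cls1]
        exact zero_le_one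
    have h6 : FF P' (a + sz (fun i : Fin 4 => z i)) ≤
        ∑ z ∈ Fintype.piFinset (fun _ : Fin 4 => range N), FF P' (a + sz z) :=
      single_le_sum (f := fun z => FF P' (a + sz z)) (fun z _ => (hF _).1) hmem
    refine le_trans ?_ (h5.trans h6)
    refine mul_le_of_le_one_right (by positivity) ?_
    have h7 : 0 ≤ 1 / (th c * N) * ∑ x ∈ prs, Dd ((P' - P) * (P' - P)) 1 1 N (a x.2 - a x.1) :=
      mul_nonneg (by positivity) (sum_nonneg hD0)
    linarith
  · push Not at hD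
    obtain ⟨x, hx, h5⟩ := hD
    refine le_trans ?_ hsum0
    refine mul_nonpos_of_nonneg_of_nonpos (by positivity) ?_
    have h6 := single_le_sum (f := fun x : ℕ × ℕ => Dd ((P' - P) * (P' - P)) 1 1 N (a x.2 - a x.1)) hD0 hx
    have h7 : 1 ≤ 1 / (th c * N) * ∑ x ∈ prs, Dd ((P' - P) * (P' - P)) 1 1 N (a x.2 - a x.1) := by
      rw [one_div, ← div_eq_inv_mul, le_div_iff₀ (by positivity), one_mul]
      exact h5.le.trans h6
    linarith

theorem low {c : ℝ} (hc : 0 < c) {P : ℤ →ᵇ ℝ} (hP : Tr01 P) {m : (ℤ →ᵇ ℝ) →ₗ[ℝ] ℝ} (hm : IsMean m)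
    (h1 : 3 / 5 + 2 * c ≤ m P) (h3 : 2 * c ≤ m (cls 3 0 * P)) :
    ∃ c₀ : ℝ, 0 < c₀ ∧ ∀ P' : ℤ →ᵇ ℝ, (∀ n, 0 ≤ P' n ∧ P' n ≤ 1) → m ((P' - P) * (P' - P)) ≤ th c / 40 →
      c₀ ≤ It (fun _ => m) 4 (FF P') := by
  have hth : 0 < th c := by unfold th; positivity
  obtain ⟨N, t, hN⟩ := period hP.1 hP.2 (δ := c / 64) (by positivity)
  have hN0 : (0 : ℝ) < N := by exact_mod_cast hN.pos
  refine ⟨1 / 2 * ((N : ℝ) ^ 4)⁻¹ * (c / 8) ^ 6, by positivity, ?_⟩
  intro P' hP' hκ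
  have hm' : ∀ j : ℕ, IsMean ((fun _ => m) j) := fun _ => hm
  have hF := fun b => FF_bd hP' b
  have hF1 : ∀ a, |FF P' a| ≤ 1 := fun a => by
    rw [abs_of_nonneg (hF a).1]
    exact (hF a).2
  -- averaging
  have e1 : (N : ℝ) ^ 4 * It (fun _ => m) 4 (FF P') =
      It (fun _ => m) 4 (fun a => ∑ z ∈ Fintype.piFinset (fun _ : Fin 4 => range N), FF P' (a + sz z)) := by
    rw [It_sum hm' 4 (C := 1) _ _ (fun z _ a => hF1 _)]
    have : ∀ z ∈ Fintype.piFinset (fun _ : Fin 4 => range N),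
        It (fun _ => m) 4 (fun a => FF P' (a + sz z)) = It (fun _ => m) 4 (FF P') := fun z _ =>
      It_shift hm' 4 hF1 (sz z) fun j hj => by
        unfold sz
        rw [dif_neg (by omega)]
    rw [sum_congr rfl this, sum_const, Fintype.card_piFinset_const, card_range, nsmul_eq_mul]
    push_cast
    simp
  have hpt := point hP.2 hP' hc rfl hN hm h1 h3
  obtain ⟨T, hT⟩ : ∃ T : ℕ × ℕ → (ℕ → ℤ) → ℝ, T = fun x a =>
    Dd ((P' - P) * (P' - P)) 1 1 N (a x.2 - a x.1) := ⟨_, rfl⟩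
  have hgb : ∀ x, 0 ≤ ((P' - P) * (P' - P)) x ∧ ((P' - P) * (P' - P)) x ≤ 1 := by
    intro x
    simp only [BoundedContinuousFunction.coe_mul, Pi.mul_apply, BoundedContinuousFunction.coe_sub,
      Pi.sub_apply]
    have b1 := hP.2 x
    have b2 := hP' x
    exact ⟨mul_self_nonneg _, by nlinarith [b1.1, b1.2, b2.1, b2.2]⟩
  have hTb : ∀ x ∈ prs, ∀ a, 0 ≤ T x a ∧ T x a ≤ 2 * N := by
    intro x _ a
    rw [hT]
    exact Dd_bd hgb _ _ _ _
  have hTa : ∀ x ∈ prs, ∀ a, |T x a| ≤ 2 * N := fun x hx a => by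
    rw [abs_of_nonneg (hTb x hx a).1]
    exact (hTb x hx a).2
  have hIT : ∀ x ∈ prs, It (fun _ => m) 4 (T x) ≤ N * (th c / 20) := by
    rintro ⟨i, j⟩ hx
    obtain ⟨hij, hj5⟩ := mem_prs.1 hx
    have e2 : T (i, j) = fun a => ∏ k ∈ range 4,
        (if k = j then Dd ((P' - P) * (P' - P)) 1 1 N (a k - a i) else 1) := by
      funext a
      rw [hT, prod_ite_eq', if_pos (mem_range.2 hj5)]
    rw [e2]
    have e3 := It_prod hm' 4 (fun k a t =>
      (if k = j then Dd ((P' - P) * (P' - P)) 1 1 N (t - a i) else 1))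
      (C := 2 * N + 1) (fun k a t => by
        split_ifs
        · have b3 := Dd_bd hgb 1 1 N (t - a i)
          rw [abs_of_nonneg b3.1]
          linarith
        · rw [abs_one]
          linarith)
      (fun k _ a b hab => by
        funext t
        by_cases hk : k = j
        · rw [if_pos hk, if_pos hk, hab i (by omega)]
        · rw [if_neg hk, if_neg hk])
      (fun k => (if k = j then (2 * N * m ((P' - P) * (P' - P))) else 1))
      (fun k hk a => by
        by_cases hkj : k = j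
        · subst hkj
          simp only [if_true]
          have h6 := lemB hm hgb (q := 1) (S := 1) (d := 1) (p := N) (r := 0) (s := a i) (one_dvd _)
            (by simp)
          have e4 : cls 1 0 * ((P' - P) * (P' - P)) = (P' - P) * (P' - P) := by
            ext n
            rw [BoundedContinuousFunction.coe_mul, Pi.mul_apply, cls1, one_mul]
          rw [e4] at h6
          rw [← h6]
          congr 2
          funext t
          rw [cls1, one_mul]
        · simp only [if_neg hkj]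
          exact m_toB_const hm 1)
    rw [e3, prod_ite_eq', if_pos (mem_range.2 hj5)]
    nlinarith
  -- assembling
  have hSb : ∀ a, |∑ x ∈ prs, T x a| ≤ 6 * (2 * N) := by
    intro a
    refine (abs_sum_le_sum_abs _ _).trans ?_
    have := sum_le_card_nsmul prs (fun x => |T x a|) (2 * N) (fun x hx => hTa x hx a)
    rw [prs_card, nsmul_eq_mul] at this
    exact_mod_cast this
  obtain ⟨κ, hκ'⟩ : ∃ κ : ℝ, κ = 1 / (th c * N) := ⟨_, rfl⟩
  have hκ0 : 0 ≤ κ := by
    rw [hκ']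
    positivity
  rw [← hκ'] at hpt
  have hSb2 : ∀ a, |(-κ) * ∑ x ∈ prs, T x a| ≤ κ * (6 * (2 * (N : ℝ))) := fun a => by
    rw [abs_mul, abs_neg, abs_of_nonneg hκ0]
    exact mul_le_mul_of_nonneg_left (hSb a) hκ0
  have hone : ∀ a : ℕ → ℤ, |(1 : ℝ)| ≤ 1 := fun _ => by rw [abs_one]
  have hRb : ∀ a, |1 + (-κ) * ∑ x ∈ prs, T x a| ≤ 1 + κ * (6 * (2 * (N : ℝ))) := fun a =>
    (abs_add_le _ _).trans (add_le_add (hone a) (hSb2 a))
  have hRb2 : ∀ a, |(c / 8) ^ 6 * (1 + (-κ) * ∑ x ∈ prs, T x a)| ≤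
      (c / 8) ^ 6 * (1 + κ * (6 * (2 * (N : ℝ)))) := fun a => by
    rw [abs_mul, abs_of_nonneg (by positivity : (0 : ℝ) ≤ (c / 8) ^ 6)]
    exact mul_le_mul_of_nonneg_left (hRb a) (by positivity)
  have hsumb : ∀ a : ℕ → ℤ, |∑ z ∈ Fintype.piFinset (fun _ : Fin 4 => range N), FF P' (a + sz z)| ≤
      (Fintype.piFinset (fun _ : Fin 4 => range N)).card * 1 := fun a => by
    refine (abs_sum_le_sum_abs _ _).trans ?_
    have := sum_le_card_nsmul (Fintype.piFinset (fun _ : Fin 4 => range N))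
      (fun z => |FF P' (a + sz z)|) 1 (fun z _ => hF1 _)
    rwa [nsmul_eq_mul] at this
  have e4 : It (fun _ => m) 4 (fun a => (c / 8) ^ 6 * (1 + (-κ) * ∑ x ∈ prs, T x a)) ≤
      It (fun _ => m) 4 (fun a => ∑ z ∈ Fintype.piFinset (fun _ : Fin 4 => range N), FF P' (a + sz z)) :=
    It_mono hm' 4 hRb2 hsumb fun a => by
      rw [hT]
      exact hpt a
  rw [It_smul hm' 4 hRb, It_add hm' 4 hone hSb2, It_smul hm' 4 hSb, It_const hm' 4,
    It_sum hm' 4 prs (fun x a => T x a) hTa, ← e1] at e4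
  have e5 : ∑ x ∈ prs, It (fun _ => m) 4 (T x) ≤ 6 * (N * (th c / 20)) := by
    have := sum_le_card_nsmul prs _ _ hIT
    rw [prs_card, nsmul_eq_mul] at this
    exact_mod_cast this
  have e6 : κ * ∑ x ∈ prs, It (fun _ => m) 4 (T x) ≤ 1 / 2 := by
    refine (mul_le_mul_of_nonneg_left e5 hκ0).trans ?_
    rw [hκ']
    have hne : th c * (N : ℝ) ≠ 0 := by positivity
    have e9 : 1 / (th c * (N : ℝ)) * (6 * (N * (th c / 20))) = 3 / 10 := by
      field_simp
      norm_num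
    rw [e9]
    norm_num
  have e7 : (c / 8) ^ 6 * (1 / 2) ≤ (N : ℝ) ^ 4 * It (fun _ => m) 4 (FF P') := by
    refine le_trans (mul_le_mul_of_nonneg_left ?_ (by positivity)) e4
    have e10 : ∑ x ∈ prs, It (fun _ => m) 4 (T x) = ∑ x ∈ prs, It (fun _ => m) 4 (fun a => T x a) := rfl
    rw [e10] at e6
    linarith
  have e8 : 1 / 2 * ((N : ℝ) ^ 4)⁻¹ * (c / 8) ^ 6 = ((N : ℝ) ^ 4)⁻¹ * ((c / 8) ^ 6 * (1 / 2)) := by ring
  rw [e8]
  calc ((N : ℝ) ^ 4)⁻¹ * ((c / 8) ^ 6 * (1 / 2))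
      ≤ ((N : ℝ) ^ 4)⁻¹ * ((N : ℝ) ^ 4 * It (fun _ => m) 4 (FF P')) :=
        mul_le_mul_of_nonneg_left e7 (by positivity)
    _ = _ := by
      rw [← mul_assoc, inv_mul_cancel₀ (by positivity), one_mul]

end Pool.Agent.Helper6.Gaps
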