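import Pool.Agent.Helper6.Gaps.Main

set_option autoImplicit false
open Filter Topology Finset
open scoped BoundedContinuousFunction

/-! The dichotomy for sets of integers without four large classes of numbers all of whose differences lie in
the set. -/

namespace Pool.Agent.Helper6.Gaps

open Pool.Agent.W634.BQ Pool.Agent.W505.BQ Pool.Agent.W27.FB Pool.Agent.W142.TF

/-- one step of the iterated mean -/
theorem It_step {m : ℕ → ((ℤ →ᵇ ℝ) →ₗ[ℝ] ℝ)} (hm : ∀ j, IsMean (m j)) (n : ℕ) {F G : (ℕ → ℤ) → ℝ} {γ : ℝ}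
    (hF : ∀ a, 0 ≤ F a ∧ F a ≤ 1) (hG : ∀ a, 0 ≤ G a ∧ G a ≤ 1)
    (h : ∀ a, γ * G a ≤ m n (toB (fun t => F (Function.update a n t)))) :
    γ * It m n G ≤ It m (n + 1) F := by
  rw [← It_smul hm n (C := 1) (fun a => abs01 (hG a))]
  exact It_mono hm n (C := |γ| * 1) (D := 1) (fun a => by
    rw [abs_mul]
    exact mul_le_mul_of_nonneg_left (abs01 (hG a)) (abs_nonneg _))
    (fun a => m_toB_abs (hm n) fun t => abs01 (hF _)) h

theorem part2 {U : Set ℤ} {m ν : (ℤ →ᵇ ℝ) →ₗ[ℝ] ℝ} (hm : IsMean m) (hν : IsMean ν) (h : 3 / 5 < m (ind U))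
    (h3 : m (cls 3 0 * ind U) = 0) (hT : 0 < ν (ind {a | a ∈ U ∧ (3 : ℤ) ∣ a})) (K : ℕ) : Boxes U K := by
  obtain ⟨β1, hβ1⟩ : ∃ β, β = m (cls 3 1 * ind U) := ⟨_, rfl⟩
  obtain ⟨β2, hβ2⟩ : ∃ β, β = m (cls 3 2 * ind U) := ⟨_, rfl⟩
  have hsum : m (ind U) = β1 + β2 := by
    have h1 := Pool.Agent.W681.TF.sum_cls' 3 (by norm_num)
    have h2 : ind U = (∑ k ∈ range 3, cls 3 (k : ℤ)) * ind U := by rw [h1, one_mul]
    rw [h2, sum_mul, map_sum, sum_range_succ, sum_range_succ, sum_range_succ, sum_range_zero, zero_add]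
    push_cast
    rw [h3, hβ1, hβ2, zero_add]
  have hle : ∀ r : ℤ, m (cls 3 r * ind U) ≤ 1 / 3 := by
    intro r
    have h1 := Pool.Agent.W681.TF.m_cls hm 3 r (by norm_num)
    have h2 : m (cls 3 r * ind U) ≤ m (cls 3 r) := m_mono hm fun t => by
      rw [BoundedContinuousFunction.coe_mul, Pi.mul_apply]
      exact mul_le_of_le_one_right (Pool.Agent.W681.TF.cls_01 3 r t).1 (ind_01 U t).2
    rw [h1] at h2
    push_cast at h2
    exact h2
  have hb1 : β1 ≤ 1 / 3 := by rw [hβ1]; exact hle 1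
  have hb2 : β2 ≤ 1 / 3 := by rw [hβ2]; exact hle 2
  obtain ⟨T, hTT⟩ : ∃ T : Set ℤ, T = {a | a ∈ U ∧ (3 : ℤ) ∣ a} := ⟨_, rfl⟩
  rw [← hTT] at hT
  obtain ⟨M, hM⟩ : ∃ M : ℕ → ((ℤ →ᵇ ℝ) →ₗ[ℝ] ℝ), M = fun j => if j = 1 then ν else m := ⟨_, rfl⟩
  have hMm : ∀ j, IsMean (M j) := by
    intro j
    rw [hM]
    show IsMean (if j = 1 then ν else m)
    split_ifs
    · exact hν
    · exact hm
  have hM1 : M 1 = ν := by rw [hM]; simp
  have hM2 : M 2 = m := by rw [hM]; simp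
  have hM3 : M 3 = m := by rw [hM]; simp
  obtain ⟨g1, hg1⟩ : ∃ g : (ℕ → ℤ) → ℝ, g = fun a => ind T (a 1 - a 0) := ⟨_, rfl⟩
  obtain ⟨g2, hg2⟩ : ∃ g : (ℕ → ℤ) → ℝ, g = fun a => g1 a *
    (cls 3 (a 0 + 1) (a 2) * (ind U (a 2 - a 0) * ind U (a 2 - a 1))) := ⟨_, rfl⟩
  obtain ⟨g3, hg3⟩ : ∃ g : (ℕ → ℤ) → ℝ, g = fun a => g2 a *
    (cls 3 (a 0 + 2) (a 3) * (ind U (a 3 - a 0) * (ind U (a 3 - a 1) * ind U (a 3 - a 2)))) := ⟨_, rfl⟩
  have hc01 : ∀ (r t : ℤ), 0 ≤ cls 3 r t ∧ cls 3 r t ≤ 1 := fun r t => Pool.Agent.W681.TF.cls_01 3 r t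
  have g1b : ∀ a, 0 ≤ g1 a ∧ g1 a ≤ 1 := fun a => by rw [hg1]; exact ind_01 T _
  have g2b : ∀ a, 0 ≤ g2 a ∧ g2 a ≤ 1 := fun a => by
    rw [hg2]
    exact mul01 (g1b a) (mul01 (hc01 _ _) (mul01 (ind_01 U _) (ind_01 U _)))
  have g3b : ∀ a, 0 ≤ g3 a ∧ g3 a ≤ 1 := fun a => by
    rw [hg3]
    exact mul01 (g2b a) (mul01 (hc01 _ _) (mul01 (ind_01 U _) (mul01 (ind_01 U _) (ind_01 U _))))
  have hindc : ∀ (V : Set ℤ) (t : ℤ), (ind V t = 1 ∧ t ∈ V) ∨ (ind V t = 0 ∧ t ∉ V) := by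
    intro V t
    by_cases h : t ∈ V
    · exact Or.inl ⟨ind_mem h, h⟩
    · exact Or.inr ⟨ind_notMem h, h⟩
  have hclc : ∀ (r t : ℤ), (cls 3 r t = 1 ∧ (3 : ℤ) ∣ t - r) ∨ (cls 3 r t = 0 ∧ ¬ (3 : ℤ) ∣ t - r) := by
    intro r t
    rcases Pool.Agent.W25.TF.Low.cls_sp 3 r t with ⟨h1, h2⟩ | ⟨h1, h2⟩
    · exact Or.inl ⟨h1, by exact_mod_cast h2⟩
    · exact Or.inr ⟨h1, by exact_mod_cast h2⟩
  have gT : ∀ a, g1 a = 0 ∨ (g1 a = 1 ∧ (3 : ℤ) ∣ a 1 - a 0 ∧ a 1 - a 0 ∈ U) := by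
    intro a
    rw [hg1]
    rcases hindc T (a 1 - a 0) with ⟨h1, h2⟩ | ⟨h1, h2⟩
    · right
      rw [hTT] at h2
      exact ⟨h1, h2.2, h2.1⟩
    · exact Or.inl h1
  -- the innermost mean
  have s3 : (2 * β2 + β1 - 2 / 3) * It M 3 g2 ≤ It M 4 g3 := by
    refine It_step hMm 3 g3b g2b fun a => ?_
    have e : ∀ t, g3 (Function.update a 3 t) = g2 a *
        (cls 3 (a 0 + 2) t * (ind U (t - a 0) * (ind U (t - a 1) * ind U (t - a 2)))) := by
      intro t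
      rw [hg3, hg2, hg1]
      simp [Function.update_of_ne]
    simp only [e]
    rw [toB_smul (C := 1) (fun t => abs01 (mul01 (hc01 _ _) (mul01 (ind_01 U _) (mul01 (ind_01 U _) (ind_01 U _))))),
      map_smul, smul_eq_mul, hM3, mul_comm]
    rcases eq_or_ne (g2 a) 0 with h0 | h0
    · rw [h0, zero_mul, zero_mul]
    · refine mul_le_mul_of_nonneg_left ?_ (g2b a).1
      have h1 : g1 a ≠ 0 := by
        intro h1
        apply h0
        rw [hg2]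
        show g1 a * _ = 0
        rw [h1, zero_mul]
      obtain ⟨_, h2, _⟩ := (gT a).resolve_left h1
      have h4 : (3 : ℤ) ∣ a 2 - (a 0 + 1) := by
        rcases hclc (a 0 + 1) (a 2) with ⟨_, h5⟩ | ⟨h5, _⟩
        · exact h5
        · exfalso
          apply h0
          rw [hg2]
          show g1 a * (cls 3 (a 0 + 1) (a 2) * _) = 0
          rw [h5, zero_mul, mul_zero]
      have h6 := claimA hm U (u := a 0) (v := a 1) (w := a 2) (by
        have : a 0 - a 1 = -(a 1 - a 0) := by ring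
        rw [this]
        exact (dvd_neg).2 h2) h4
      rw [hβ1, hβ2]
      linarith
  have s2 : (2 * β1 - 1 / 3) * It M 2 g1 ≤ It M 3 g2 := by
    refine It_step hMm 2 g2b g1b fun a => ?_
    have e : ∀ t, g2 (Function.update a 2 t) = g1 a *
        (cls 3 (a 0 + 1) t * (ind U (t - a 0) * ind U (t - a 1))) := by
      intro t
      rw [hg2, hg1]
      simp [Function.update_of_ne]
    simp only [e]
    rw [toB_smul (C := 1) (fun t => abs01 (mul01 (hc01 _ _) (mul01 (ind_01 U _) (ind_01 U _)))),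
      map_smul, smul_eq_mul, hM2, mul_comm]
    rcases gT a with h0 | ⟨h0, h2, _⟩
    · rw [h0, zero_mul, zero_mul]
    · refine mul_le_mul_of_nonneg_left ?_ (g1b a).1
      have h6 := claimB hm U (u := a 0) (v := a 1) (by
        have : a 0 - a 1 = -(a 1 - a 0) := by ring
        rw [this]
        exact (dvd_neg).2 h2)
      rw [hβ1]
      linarith
  have s1 : ν (ind T) ≤ It M 2 g1 := by
    have h1 : ν (ind T) * It M 1 (fun _ => 1) ≤ It M 2 g1 := by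
      refine It_step hMm 1 g1b (fun _ => ⟨zero_le_one, le_rfl⟩) fun a => ?_
      rw [mul_one, hM1]
      have e : ∀ t, g1 (Function.update a 1 t) = ind T (t + -a 0) := by
        intro t
        rw [hg1]
        simp [Function.update_of_ne, sub_eq_add_neg]
      simp only [e]
      rw [m_toB_shift hν (g := fun t => ind T t) (C := 1) (fun t => abs01 (ind_01 T t)), toB_coe]
    rw [It_const hMm 1, mul_one] at h1
    exact h1
  have hpos : 0 < It M 4 g3 := by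
    have h1 : 0 < 2 * β1 - 1 / 3 := by linarith
    have h2 : 0 < 2 * β2 + β1 - 2 / 3 := by linarith
    have h4 : 0 < It M 2 g1 := hT.trans_le s1
    have h5 : 0 < It M 3 g2 := (mul_pos h1 h4).trans_le s2
    exact (mul_pos h2 h5).trans_le s3
  refine boxes_of hMm K (F := g3) g3b ?_ hpos
  intro a ha i j hij hj
  have k2 : g2 a ≠ 0 := by
    intro h0
    apply ha
    rw [hg3]
    show g2 a * _ = 0
    rw [h0, zero_mul]
  have k3 : cls 3 (a 0 + 2) (a 3) * (ind U (a 3 - a 0) * (ind U (a 3 - a 1) * ind U (a 3 - a 2))) ≠ 0 := by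
    intro h0
    apply ha
    rw [hg3]
    show g2 a * _ = 0
    rw [h0, mul_zero]
  have k1 : g1 a ≠ 0 := by
    intro h0
    apply k2
    rw [hg2]
    show g1 a * _ = 0
    rw [h0, zero_mul]
  have k4 : cls 3 (a 0 + 1) (a 2) * (ind U (a 2 - a 0) * ind U (a 2 - a 1)) ≠ 0 := by
    intro h0
    apply k2
    rw [hg2]
    show g1 a * _ = 0
    rw [h0, mul_zero]
  have hin : ∀ t, ind U t ≠ 0 → t ∈ U := fun t ht => by
    rcases hindc U t with ⟨_, h2⟩ | ⟨h1, _⟩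
    · exact h2
    · exact absurd h1 ht
  have q01 := ((gT a).resolve_left k1).2.2
  have q02 := hin _ (left_ne_zero_of_mul (right_ne_zero_of_mul k4))
  have q12 := hin _ (right_ne_zero_of_mul (right_ne_zero_of_mul k4))
  have q03 := hin _ (left_ne_zero_of_mul (right_ne_zero_of_mul k3))
  have q13 := hin _ (left_ne_zero_of_mul (right_ne_zero_of_mul (right_ne_zero_of_mul k3)))
  have q23 := hin _ (right_ne_zero_of_mul (right_ne_zero_of_mul (right_ne_zero_of_mul k3)))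
  have : (i = 0 ∧ j = 1) ∨ (i = 0 ∧ j = 2) ∨ (i = 0 ∧ j = 3) ∨ (i = 1 ∧ j = 2) ∨ (i = 1 ∧ j = 3) ∨
      (i = 2 ∧ j = 3) := by omega
  rcases this with ⟨rfl, rfl⟩ | ⟨rfl, rfl⟩ | ⟨rfl, rfl⟩ | ⟨rfl, rfl⟩ | ⟨rfl, rfl⟩ | ⟨rfl, rfl⟩ <;>
    assumption

/-- **The dichotomy.** -/
theorem dichotomy (U : Set ℤ) (K : ℕ) (hU : ¬ Boxes U K) :
    (∀ ε : ℝ, 0 < ε → ∃ L₀ : ℕ, ∀ L : ℕ, L₀ ≤ L → ∀ u : ℤ,
      ({n : ℕ | n < L ∧ u + (n : ℤ) ∈ U}.ncard : ℝ) ≤ (3 / 5 + ε) * L) ∨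
    Null {a | a ∈ U ∧ (3 : ℤ) ∣ a} := by
  by_contra hcon
  push Not at hcon
  obtain ⟨⟨ε, hε, hwin⟩, hT⟩ := hcon
  obtain ⟨m, hm, hE, hmU⟩ := Pool.Agent.W756.TF.ban U (3 / 5 + ε) (fun L₀ => by
    obtain ⟨L, hL, u, hu⟩ := hwin L₀
    exact ⟨L, hL, u, hu.le⟩)
  have h0 : 0 ≤ m (cls 3 0 * ind U) := hm.pos _ fun t => by
    rw [BoundedContinuousFunction.coe_mul, Pi.mul_apply]
    exact mul_nonneg (Pool.Agent.W681.TF.cls_01 3 0 t).1 (ind_01 U t).1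
  rcases h0.eq_or_lt with h1 | h1
  · obtain ⟨ν, hν, _, hνT⟩ := Pool.Agent.W782.FN.mean _ hT
    exact hU (part2 hm hν (by linarith) h1.symm hνT K)
  · obtain ⟨c, hc⟩ : ∃ c, c = min ε (m (cls 3 0 * ind U)) / 3 := ⟨_, rfl⟩
    have hc0 : 0 < c := by
      rw [hc]
      exact div_pos (lt_min hε h1) (by norm_num)
    have hc1 : 3 * c ≤ ε := by
      rw [hc]
      have := min_le_left ε (m (cls 3 0 * ind U))
      linarith
    have hc2 : 3 * c ≤ m (cls 3 0 * ind U) := by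
      rw [hc]
      have := min_le_right ε (m (cls 3 0 * ind U))
      linarith
    exact hU (part1 hm hE hc0 (by linarith) hc2 K)

end Pool.Agent.Helper6.Gaps
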