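import Pool.Agent.Helper6.Gaps.Fin

set_option autoImplicit false
set_option linter.unusedSectionVars false

open scoped Pointwise
open Finset

/-! Kneser's theorem in terms of a quotient, and the exact theorem. -/

namespace Pool.Agent.Helper6.Gaps

open Pool.Agent.Helper730.Kneser

variable {G : Type} [AddCommGroup G] [Fintype G] [DecidableEq G]

open Classical in
theorem card_add_fs (H : AddSubgroup G) (I : Finset G) :
    (I + fs H).card = (I.image (fun x : G => (x : G ⧸ H))).card * (fs H).card := by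
  rw [← card_pre]
  congr 1
  apply Finset.ext
  intro x
  rw [mem_filter, mem_image, mem_add]
  constructor
  · rintro ⟨a, ha, b, hb, rfl⟩
    refine ⟨mem_univ _, a, ha, ?_⟩
    rw [mem_fs] at hb
    exact QuotientAddGroup.eq.2 (by simpa using hb)
  · rintro ⟨_, a, ha, h⟩
    refine ⟨a, ha, -a + x, mem_fs.2 (QuotientAddGroup.eq.1 h), by abel⟩

open Classical in
theorem mem_of_image {D : Finset G} {H : AddSubgroup G} (hH : H ≤ stab D) {x : G}
    (h : (x : G ⧸ H) ∈ D.image (fun x : G => (x : G ⧸ H))) : x ∈ D := by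
  rw [mem_image] at h
  obtain ⟨a, ha, h⟩ := h
  have h1 : -a + x ∈ stab D := hH (QuotientAddGroup.eq.1 h)
  have h2 := stab_add h1 ha
  rwa [show a + (-a + x) = x by abel] at h2

open Classical in
theorem card_per {D : Finset G} {H : AddSubgroup G} (hH : H ≤ stab D) :
    D.card = (D.image (fun x : G => (x : G ⧸ H))).card * (fs H).card := by
  rw [← card_pre]
  congr 1
  apply Finset.ext
  intro x
  rw [mem_filter]
  exact ⟨fun h => ⟨mem_univ _, mem_image_of_mem _ h⟩, fun h => mem_of_image hH h.2⟩

open Classical in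
/-- Kneser's theorem for the set of the differences `b - a`, `a ∈ A`, `b ∈ B`. -/
theorem kneser_quot (A B : Finset G) (hA : A.Nonempty) (hB : B.Nonempty) :
    ∃ (D : Finset G) (H : AddSubgroup G), (∀ d, d ∈ D ↔ ∃ a ∈ A, ∃ b ∈ B, d = b - a) ∧ H ≤ stab D ∧
      (A.image (fun x : G => (x : G ⧸ H))).card + (B.image (fun x : G => (x : G ⧸ H))).card ≤
        (D.image (fun x : G => (x : G ⧸ H))).card + 1 := by
  have hA' : (A.image (fun x => -x)).Nonempty := hA.image _
  obtain ⟨D, hD⟩ : ∃ D, D = B + A.image (fun x => -x) := ⟨_, rfl⟩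
  refine ⟨D, stab D, fun d => ?_, le_rfl, ?_⟩
  · rw [hD, mem_add]
    constructor
    · rintro ⟨b, hb, a, ha, rfl⟩
      rw [mem_image] at ha
      obtain ⟨a, ha, rfl⟩ := ha
      exact ⟨a, ha, b, hb, by abel⟩
    · rintro ⟨a, ha, b, hb, rfl⟩
      exact ⟨b, hb, -a, mem_image_of_mem _ ha, by abel⟩
  · have h := kneser' B (A.image (fun x => -x)) hB hA'
    rw [← hD, card_add_fs, card_add_fs, card_per (D := D) le_rfl] at h
    have h2 : ((A.image (fun x => -x)).image (fun x : G => (x : G ⧸ stab D))).card =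
        (A.image (fun x : G => (x : G ⧸ stab D))).card := by
      have : (A.image (fun x => -x)).image (fun x : G => (x : G ⧸ stab D)) =
          (A.image (fun x : G => (x : G ⧸ stab D))).image (fun x => -x) := by
        rw [image_image, image_image]
        rfl
      rw [this, card_image_of_injective _ neg_injective]
    rw [h2] at h
    have h3 := fs_card_pos (stab D)
    have h4 : ((B.image (fun x : G => (x : G ⧸ stab D))).card + (A.image (fun x : G => (x : G ⧸ stab D))).card) *
        (fs (stab D)).card ≤ ((D.image (fun x : G => (x : G ⧸ stab D))).card + 1) * (fs (stab D)).card := by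
      rw [add_mul, add_mul, one_mul]
      exact h
    have h5 := Nat.le_of_mul_le_mul_right h4 h3
    omega

/-- the points `0, x, z, w` -/
def pts (x z w : G) : ℕ → G
  | 0 => 0
  | 1 => x
  | 2 => z
  | _ => w

theorem four_of {S : Finset G} {x z w : G} (h1 : x ∈ S) (h2 : z ∈ S) (h3 : w ∈ S) (h4 : z - x ∈ S)
    (h5 : w - x ∈ S) (h6 : w - z ∈ S) : Four S := by
  refine ⟨pts x z w, fun i j hij hj => ?_⟩
  have : (i = 0 ∧ j = 1) ∨ (i = 0 ∧ j = 2) ∨ (i = 0 ∧ j = 3) ∨ (i = 1 ∧ j = 2) ∨ (i = 1 ∧ j = 3) ∨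
      (i = 2 ∧ j = 3) := by omega
  rcases this with ⟨rfl, rfl⟩ | ⟨rfl, rfl⟩ | ⟨rfl, rfl⟩ | ⟨rfl, rfl⟩ | ⟨rfl, rfl⟩ | ⟨rfl, rfl⟩ <;>
    simpa [pts]

theorem four_of_index {S : Finset G} (L : AddSubgroup G) (hL : ∀ x, x ∉ L → x ∈ S) (h : 4 ≤ L.index) :
    Four S := by
  classical
  let _ : Fintype (G ⧸ L) := Fintype.ofFinite _
  have h1 : 4 ≤ Fintype.card (G ⧸ L) := by
    rw [← Nat.card_eq_fintype_card]
    exact h
  obtain ⟨f⟩ := Function.Embedding.nonempty_of_card_le (α := Fin 4) (β := G ⧸ L) (by simpa using h1)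
  have h2 : ∀ i : Fin 4, ∃ z : G, (z : G ⧸ L) = f i := fun i => QuotientAddGroup.mk_surjective _
  choose z hz using h2
  refine ⟨fun i => if h : i < 4 then z ⟨i, h⟩ else 0, fun i j hij hj => ?_⟩
  have hi : i < 4 := by omega
  simp only [hi, hj, dif_pos]
  apply hL
  intro h3
  have h4 : ((z ⟨i, hi⟩ : G) : G ⧸ L) = z ⟨j, hj⟩ := by
    rw [QuotientAddGroup.eq]
    rwa [neg_add_eq_sub]
  rw [hz, hz] at h4
  have := f.injective h4
  simp only [Fin.mk.injEq] at this
  omega

theorem count (S : Finset G) (x : G) :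
    (S.filter (fun z => z - x ∈ S)).card + 2 * Sᶜ.card =
      Fintype.card G + (Sᶜ.filter (fun z => z - x ∈ Sᶜ)).card := by
  have h1 := card_union_add_card_inter Sᶜ (univ.filter (fun z => z - x ∈ Sᶜ))
  have h2 : (univ.filter (fun z => z - x ∈ Sᶜ)).card = Sᶜ.card := by
    refine card_bij (fun z _ => z - x) (fun z hz => (mem_filter.1 hz).2) (fun a _ b _ h => sub_left_injective h)
      fun z hz => ⟨z + x, by simpa using hz, by simp⟩
  have h3 : Sᶜ ∩ (univ.filter (fun z => z - x ∈ Sᶜ)) = Sᶜ.filter (fun z => z - x ∈ Sᶜ) := by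
    apply Finset.ext
    intro z
    simp
  have h4 : (Sᶜ ∪ univ.filter (fun z => z - x ∈ Sᶜ)).card + (S.filter (fun z => z - x ∈ S)).card =
      Fintype.card G := by
    have : S.filter (fun z => z - x ∈ S) = (Sᶜ ∪ univ.filter (fun z => z - x ∈ Sᶜ))ᶜ := by
      apply Finset.ext
      intro z
      simp
    rw [this, card_add_card_compl]
  rw [h2, h3] at h1
  omega

theorem exact_aux (n : ℕ) : ∀ (G : Type) [AddCommGroup G] [Fintype G] [DecidableEq G] (S : Finset G),
    Fintype.card G = n → 3 * Fintype.card G < 5 * S.card →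
      Four S ∨ ∃ L : AddSubgroup G, L.index = 3 ∧ ∀ x ∈ L, x ∉ S := by
  classical
  induction n using Nat.strong_induction_on with
  | _ n ih =>
  intro G _ _ _ S hn hS
  by_contra hcon
  push Not at hcon
  obtain ⟨h4, hL⟩ := hcon
  have hc : S.card + Sᶜ.card = Fintype.card G := card_add_card_compl S
  have h0 : (0 : G) ∉ S := fun h => h4 (four_of h h h (by simpa using h) (by simpa using h) (by simpa using h))
  by_cases hall : ∀ x ∈ S, Sᶜ.filter (fun z => z - x ∈ Sᶜ) = ∅
  · -- the complement is a subgroup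
    have hsub : ∀ a b, a ∉ S → b ∉ S → a - b ∉ S := by
      intro a b ha hb hab
      have h1 := hall _ hab
      have h2 : a ∈ Sᶜ.filter (fun z => z - (a - b) ∈ Sᶜ) := by
        rw [mem_filter]
        refine ⟨mem_compl.2 ha, mem_compl.2 ?_⟩
        rwa [sub_sub_cancel]
      rw [h1] at h2
      exact absurd h2 (notMem_empty _)
    let L : AddSubgroup G :=
      { carrier := {a | a ∉ S}
        zero_mem' := h0
        neg_mem' := fun {a} ha => by
          have := hsub 0 a h0 ha
          rwa [zero_sub] at this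
        add_mem' := fun {a b} ha hb => by
          have h1 := hsub 0 b h0 hb
          have h2 := hsub a (0 - b) ha h1
          rwa [zero_sub, sub_neg_eq_add] at h2 }
    have hmem : ∀ x, x ∈ L ↔ x ∉ S := fun x => Iff.rfl
    have hLc : (fs L).card = Sᶜ.card := by
      congr 1
      apply Finset.ext
      intro x
      rw [mem_fs, hmem, mem_compl]
    have h1 := card_quot L
    rw [hLc] at h1
    have h2 : L.index = Nat.card (G ⧸ L) := rfl
    rw [← h2] at h1
    have h3 : 3 ≤ L.index := by
      by_contra hlt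
      have : L.index ≤ 2 := by omega
      have h5 : L.index * Sᶜ.card ≤ 2 * Sᶜ.card := Nat.mul_le_mul_right _ this
      omega
    rcases h3.eq_or_lt with h5 | h5
    · obtain ⟨x, hx, hxS⟩ := hL L h5.symm
      exact (hmem x).1 hx hxS
    · exact h4 (four_of_index L (fun x hx => by
        by_contra h
        exact hx ((hmem x).2 h)) h5)
  · push Not at hall
    obtain ⟨x, hx, hR⟩ := hall
    have hR1 : 1 ≤ (Sᶜ.filter (fun z => z - x ∈ Sᶜ)).card := card_pos.2 hR
    have hcount := count S x
    obtain ⟨I, hI⟩ : ∃ I, I = S.filter (fun z => z - x ∈ S) := ⟨_, rfl⟩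
    rw [← hI] at hcount
    have hII : ∀ z ∈ I, ∀ w ∈ I, w - z ∉ S := by
      intro z hz w hw hzw
      rw [hI, mem_filter] at hz hw
      exact h4 (four_of hx hz.1 hw.1 hz.2 hw.2 hzw)
    have hne : I.Nonempty := by
      rw [← card_pos]
      omega
    obtain ⟨D, H, hD, hH, hk⟩ := kneser_quot I I hne hne
    obtain ⟨k, hkk⟩ : ∃ k, k = (I.image (fun x : G => (x : G ⧸ H))).card := ⟨_, rfl⟩
    obtain ⟨w, hww⟩ : ∃ w, w = (D.image (fun x : G => (x : G ⧸ H))).card := ⟨_, rfl⟩
    rw [← hkk, ← hww] at hk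
    have hDc := card_per hH
    rw [← hww] at hDc
    have hIc : I.card ≤ k * (fs H).card := by
      rw [hkk, ← card_add_fs]
      refine card_le_card fun a ha => mem_add.2 ⟨a, ha, 0, mem_fs.2 H.zero_mem, add_zero a⟩
    have hDP : D ⊆ Sᶜ := by
      intro d hd
      obtain ⟨a, ha, b, hb, rfl⟩ := (hD d).1 hd
      exact mem_compl.2 (hII a ha b hb)
    have hDp := card_le_card hDP
    have hq := card_quot H
    have hh := fs_card_pos H
    let _ : Fintype (G ⧸ H) := Fintype.ofFinite _
    rw [Nat.card_eq_fintype_card] at hq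
    obtain ⟨m, hm⟩ : ∃ m, m = Fintype.card (G ⧸ H) := ⟨_, rfl⟩
    obtain ⟨h, hhh⟩ : ∃ h, h = (fs H).card := ⟨_, rfl⟩
    rw [← hm] at hq
    rw [← hhh] at hq hh hIc hDc
    have e1 : 5 * w < 2 * m := by
      have h5 : (5 * w) * h < (2 * m) * h := by
        have h6 : 5 * w * h = 5 * (w * h) := by ring
        have h7 : 2 * m * h = 2 * (m * h) := by ring
        rw [h6, h7]
        omega
      exact Nat.lt_of_mul_lt_mul_right h5
    have e2 : m < 5 * k := by
      have h5 : m * h < (5 * k) * h := by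
        have h6 : 5 * k * h = 5 * (k * h) := by ring
        rw [h6]
        omega
      exact Nat.lt_of_mul_lt_mul_right h5
    have hp : Sᶜ.card < (w + 1) * h := by
      have h5 : 2 * m + 1 ≤ 5 * (w + 1) := by omega
      have h6 : (2 * m + 1) * h ≤ (5 * (w + 1)) * h := Nat.mul_le_mul_right _ h5
      have h7 : (2 * m + 1) * h = 2 * (m * h) + h := by ring
      have h8 : (5 * (w + 1)) * h = 5 * ((w + 1) * h) := by ring
      rw [h7, h8] at h6
      omega
    by_cases h1 : h = 1
    · -- trivial stabiliser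
      subst h1
      rw [mul_one] at hq hIc hDc hp
      omega
    · have hlt : Fintype.card (G ⧸ H) < n := by
        rw [← hm, ← hn, hq]
        have : 2 ≤ h := by omega
        have h5 : 0 < m := by
          rw [hm]
          exact Fintype.card_pos
        exact (Nat.lt_mul_iff_one_lt_right h5).2 (by omega)
      have hQ : 3 * Fintype.card (G ⧸ H) < 5 * ((D.image (fun x : G => (x : G ⧸ H)))ᶜ).card := by
        rw [card_compl, ← hm, ← hww]
        omega
      have h00 : (0 : G ⧸ H) ∉ (D.image (fun x : G => (x : G ⧸ H)))ᶜ := by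
        rw [mem_compl, not_not, mem_image]
        obtain ⟨a, ha⟩ := hne
        exact ⟨0, (hD 0).2 ⟨a, ha, a, ha, by simp⟩, rfl⟩
      rcases ih _ hlt (G ⧸ H) _ rfl hQ with ⟨y', hy'⟩ | ⟨L', hL', hL2⟩
      · obtain ⟨y, hy⟩ := lift H S _ y' hy' h00 (Sᶜ \ D) (fun a ha haM => by
            by_contra haS
            apply haM
            rw [mem_sdiff]
            refine ⟨mem_compl.2 haS, fun haD => ?_⟩
            exact (mem_compl.1 ha) (mem_image_of_mem _ haD)) (fun _ _ => ∅) 0 (fun _ _ => by simp)
          (by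
            rw [mul_zero, add_zero, card_sdiff_of_subset hDP, ← hhh]
            have h5 : (w + 1) * h = w * h + h := by ring
            omega)
        exact h4 ⟨y, fun i j hij hj => (hy i j hij hj).1⟩
      · obtain ⟨a, haL, haS⟩ := hL (L'.comap (QuotientAddGroup.mk' H)) (by
          rw [AddSubgroup.index_comap_of_surjective _ (QuotientAddGroup.mk'_surjective H), hL'])
        have h5 : (a : G ⧸ H) ∈ L' := haL
        have h6 := hL2 _ h5
        rw [mem_compl, not_not] at h6
        have h7 := hDP (mem_of_image hH h6)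
        exact (mem_compl.1 h7) haS

/-- a set of more than three fifths of the elements of a finite abelian group contains all the differences of
four points, or it is disjoint to a subgroup of index three -/
theorem exact_three (S : Finset G) (hS : 3 * Fintype.card G < 5 * S.card) :
    Four S ∨ ∃ L : AddSubgroup G, L.index = 3 ∧ ∀ x ∈ L, x ∉ S :=
  exact_aux _ G S rfl hS

end Pool.Agent.Helper6.Gaps
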