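import Pool.Graph.R_seed8.Helper730.Kneser

set_option autoImplicit false
set_option linter.unusedSectionVars false

open scoped Pointwise
open Finset

/-! Four points of a finite abelian group whose differences lie in a given set of more than three fifths of the
elements: the exact and the robust form. -/

namespace Pool.Agent.Helper6.Gaps

open Pool.Agent.Helper730.Kneser

variable {G : Type} [AddCommGroup G] [Fintype G] [DecidableEq G]

/-- four points with all differences (later minus earlier) in `S` -/
def Four (S : Finset G) : Prop := ∃ y : ℕ → G, ∀ i j, i < j → j < 4 → y j - y i ∈ S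

open Classical in
/-- the number of the elements of a coset -/
theorem card_fiber (H : AddSubgroup G) (T : G ⧸ H) :
    (univ.filter (fun x : G => (x : G ⧸ H) = T)).card = (fs H).card := by
  obtain ⟨t, rfl⟩ := QuotientAddGroup.mk_surjective T
  refine card_bij (fun x _ => -t + x) (fun x hx => ?_) (fun x _ y _ h => by simpa using h) fun y hy => ?_
  · rw [mem_filter] at hx
    rw [mem_fs]
    exact QuotientAddGroup.eq.1 hx.2.symm
  · refine ⟨t + y, ?_, by simp⟩
    rw [mem_filter]
    refine ⟨mem_univ _, ?_⟩
    rw [mem_fs] at hy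
    exact (QuotientAddGroup.eq.2 (by simpa using hy)).symm

open Classical in
theorem card_pre (H : AddSubgroup G) (T : Finset (G ⧸ H)) :
    (univ.filter (fun x : G => (x : G ⧸ H) ∈ T)).card = T.card * (fs H).card := by
  have h1 : univ.filter (fun x : G => (x : G ⧸ H) ∈ T) =
      T.biUnion (fun t => univ.filter (fun x : G => (x : G ⧸ H) = t)) := by
    apply Finset.ext
    intro x
    simp only [mem_filter, mem_univ, true_and, mem_biUnion]
    exact ⟨fun h => ⟨_, h, rfl⟩, fun ⟨t, ht, h⟩ => h ▸ ht⟩
  rw [h1, card_biUnion]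
  · rw [sum_congr rfl (fun t _ => card_fiber H t), sum_const, smul_eq_mul]
  · intro t _ t' _ hne
    rw [Function.onFun, disjoint_left]
    intro x hx hx'
    rw [mem_filter] at hx hx'
    exact hne (hx.2.symm.trans hx'.2)

theorem card_quot (H : AddSubgroup G) : Fintype.card G = Nat.card (G ⧸ H) * (fs H).card := by
  classical
  let _ : Fintype (G ⧸ H) := Fintype.ofFinite _
  have h := card_pre H (univ : Finset (G ⧸ H))
  simp only [mem_univ, filter_true, card_univ] at h
  rw [h, Nat.card_eq_fintype_card]

/-- one more point -/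
theorem onemore (H : AddSubgroup G) (M : Finset G) (s : Finset ℕ) (y : ℕ → G) (T : G ⧸ H) (X : ℕ → Finset G)
    (hinj : ∀ i ∈ s, ∀ j ∈ s, (y i : G ⧸ H) = (y j : G ⧸ H) → i = j)
    (hsz : M.card + ∑ i ∈ s, (X i).card < (fs H).card) :
    ∃ z : G, (z : G ⧸ H) = T ∧ ∀ i ∈ s, z - y i ∉ M ∧ z - y i ∉ X i := by
  classical
  by_contra hcon
  push Not at hcon
  have hsub : univ.filter (fun x : G => (x : G ⧸ H) = T) ⊆
      s.biUnion (fun i => univ.filter (fun z : G => (z : G ⧸ H) = T ∧ (z - y i ∈ M ∨ z - y i ∈ X i))) := by
    intro z hz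
    rw [mem_filter] at hz
    obtain ⟨i, hi, h⟩ := hcon z hz.2
    rw [mem_biUnion]
    refine ⟨i, hi, ?_⟩
    rw [mem_filter]
    refine ⟨mem_univ _, hz.2, ?_⟩
    by_cases h1 : z - y i ∈ M
    · exact Or.inl h1
    · exact Or.inr (h h1)
  have h1 := card_le_card hsub
  rw [card_fiber] at h1
  have h2 : ∀ i ∈ s, (univ.filter (fun z : G => (z : G ⧸ H) = T ∧ (z - y i ∈ M ∨ z - y i ∈ X i))).card ≤
      (M.filter (fun x : G => (x : G ⧸ H) = T - (y i : G ⧸ H))).card + (X i).card := by
    intro i _
    have h3 : (univ.filter (fun z : G => (z : G ⧸ H) = T ∧ (z - y i ∈ M ∨ z - y i ∈ X i))).card =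
        ((univ.filter (fun z : G => (z : G ⧸ H) = T ∧ (z - y i ∈ M ∨ z - y i ∈ X i))).image
          (fun z => z - y i)).card := by
      rw [card_image_of_injective _ (sub_left_injective)]
    rw [h3]
    refine (card_le_card ?_).trans (card_union_le _ _)
    intro x hx
    rw [mem_image] at hx
    obtain ⟨z, hz, rfl⟩ := hx
    rw [mem_filter] at hz
    rw [mem_union]
    rcases hz.2.2 with h | h
    · left
      rw [mem_filter]
      refine ⟨h, ?_⟩
      rw [QuotientAddGroup.mk_sub, hz.2.1]
    · exact Or.inr h
  have h4 : ∑ i ∈ s, (M.filter (fun x : G => (x : G ⧸ H) = T - (y i : G ⧸ H))).card ≤ M.card := by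
    rw [← card_biUnion]
    · refine card_le_card ?_
      intro x hx
      rw [mem_biUnion] at hx
      obtain ⟨i, _, h⟩ := hx
      exact (mem_filter.1 h).1
    · intro i hi j hj hij
      rw [Function.onFun, disjoint_left]
      intro x hx hx'
      rw [mem_filter] at hx hx'
      apply hij
      apply hinj i hi j hj
      have := hx.2.symm.trans hx'.2
      exact sub_right_injective this
  have h5 := (card_biUnion_le (s := s) (t := fun i => univ.filter (fun z : G => (z : G ⧸ H) = T ∧
    (z - y i ∈ M ∨ z - y i ∈ X i)))).trans (sum_le_sum h2)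
  rw [sum_add_distrib] at h5
  omega

/-- lifting of four points from a quotient -/
theorem lift (H : AddSubgroup G) (S : Finset G) (Q : Finset (G ⧸ H)) (y' : ℕ → G ⧸ H)
    (hy' : ∀ i j, i < j → j < 4 → y' j - y' i ∈ Q) (h0 : (0 : G ⧸ H) ∉ Q) (M : Finset G)
    (hM : ∀ x : G, (x : G ⧸ H) ∈ Q → x ∉ M → x ∈ S) (X : ℕ → ℕ → Finset G) (e : ℕ)
    (hX : ∀ i j, (X i j).card ≤ e) (hsz : M.card + 3 * e < (fs H).card) :
    ∃ y : ℕ → G, ∀ i j, i < j → j < 4 → y j - y i ∈ S ∧ y j - y i ∉ X i j := by
  classical
  have hne : ∀ i j, i < j → j < 4 → y' i ≠ y' j := by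
    intro i j hij hj h
    have := hy' i j hij hj
    rw [h, sub_self] at this
    exact h0 this
  have key : ∀ n : ℕ, n ≤ 4 → ∃ y : ℕ → G, (∀ i < n, (y i : G ⧸ H) = y' i) ∧
      ∀ i j, i < j → j < n → y j - y i ∈ S ∧ y j - y i ∉ X i j := by
    intro n
    induction n with
    | zero => exact fun _ => ⟨fun _ => 0, fun i hi => absurd hi (Nat.not_lt_zero i),
        fun i j _ hj => absurd hj (Nat.not_lt_zero j)⟩
    | succ n ih =>
      intro hn
      obtain ⟨y, hy1, hy2⟩ := ih (by omega)
      obtain ⟨z, hz1, hz2⟩ := onemore H M (range n) y (y' n) (fun i => X i n) (fun i hi j hj h => by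
          rw [mem_range] at hi hj
          rw [hy1 i hi, hy1 j hj] at h
          rcases lt_trichotomy i j with h1 | h1 | h1
          · exact absurd h (hne i j h1 (by omega))
          · exact h1
          · exact absurd h.symm (hne j i h1 (by omega)))
        (by
          have h1 : ∑ i ∈ range n, (X i n).card ≤ n * e := by
            have := sum_le_card_nsmul (range n) (fun i => (X i n).card) e (fun i _ => hX i n)
            rwa [card_range, smul_eq_mul] at this
          have h2 : n * e ≤ 3 * e := Nat.mul_le_mul_right e (by omega)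
          omega)
      refine ⟨Function.update y n z, fun i hi => ?_, fun i j hij hj => ?_⟩
      · by_cases h : i = n
        · subst h
          rw [Function.update_self]
          exact hz1
        · rw [Function.update_of_ne h]
          exact hy1 i (by omega)
      · by_cases h : j = n
        · subst h
          rw [Function.update_self, Function.update_of_ne (by omega)]
          have h3 := hz2 i (mem_range.2 hij)
          refine ⟨hM _ ?_ h3.1, h3.2⟩
          rw [QuotientAddGroup.mk_sub, hz1, hy1 i hij]
          exact hy' i j hij (by omega)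
        · rw [Function.update_of_ne h, Function.update_of_ne (by omega)]
          exact hy2 i j hij (by omega)
  obtain ⟨y, _, hy⟩ := key 4 le_rfl
  exact ⟨y, hy⟩

end Pool.Agent.Helper6.Gaps
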