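import Pool.Agent.Helper6.Gaps.Exact

set_option autoImplicit false
set_option linter.unusedSectionVars false

open scoped Pointwise
open Finset

/-! The robust form of the theorem on four points: a few exceptions for each of the six differences. -/

namespace Pool.Agent.Helper6.Gaps

open Pool.Agent.Helper730.Kneser

variable {G : Type} [AddCommGroup G] [Fintype G] [DecidableEq G]

theorem pts_of {S : Finset G} {X : ℕ → ℕ → Finset G} {x z w : G} (h1 : x ∈ S ∧ x ∉ X 0 1)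
    (h2 : z ∈ S ∧ z ∉ X 0 2) (h3 : w ∈ S ∧ w ∉ X 0 3) (h4 : z - x ∈ S ∧ z - x ∉ X 1 2)
    (h5 : w - x ∈ S ∧ w - x ∉ X 1 3) (h6 : w - z ∈ S ∧ w - z ∉ X 2 3) :
    ∃ y : ℕ → G, ∀ i j, i < j → j < 4 → y j - y i ∈ S ∧ y j - y i ∉ X i j := by
  refine ⟨pts x z w, fun i j hij hj => ?_⟩
  have : (i = 0 ∧ j = 1) ∨ (i = 0 ∧ j = 2) ∨ (i = 0 ∧ j = 3) ∨ (i = 1 ∧ j = 2) ∨ (i = 1 ∧ j = 3) ∨
      (i = 2 ∧ j = 3) := by omega
  rcases this with ⟨rfl, rfl⟩ | ⟨rfl, rfl⟩ | ⟨rfl, rfl⟩ | ⟨rfl, rfl⟩ | ⟨rfl, rfl⟩ | ⟨rfl, rfl⟩ <;>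
    simpa [pts]

/-- the common neighbours with exceptions -/
theorem card_nb (S : Finset G) (x : G) (Y Z : Finset G) :
    (S.filter (fun z => z - x ∈ S)).card ≤
      (S.filter (fun z => z ∉ Y ∧ z - x ∈ S ∧ z - x ∉ Z)).card + (Y.card + Z.card) := by
  have h1 : S.filter (fun z => z - x ∈ S) ⊆
      S.filter (fun z => z ∉ Y ∧ z - x ∈ S ∧ z - x ∉ Z) ∪ (Y ∪ univ.filter (fun z => z - x ∈ Z)) := by
    intro z hz
    rw [mem_filter] at hz
    simp only [mem_union, mem_filter, mem_univ, true_and]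
    by_cases h2 : z ∈ Y
    · exact Or.inr (Or.inl h2)
    · by_cases h3 : z - x ∈ Z
      · exact Or.inr (Or.inr h3)
      · exact Or.inl ⟨hz.1, h2, hz.2, h3⟩
  have h2 : (univ.filter (fun z => z - x ∈ Z)).card = Z.card := by
    refine card_bij (fun z _ => z - x) (fun z hz => (mem_filter.1 hz).2) (fun a _ b _ h => sub_left_injective h)
      fun z hz => ⟨z + x, by simpa using hz, by simp⟩
  have h3 := card_union_le (S.filter (fun z => z ∉ Y ∧ z - x ∈ S ∧ z - x ∉ Z))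
    (Y ∪ univ.filter (fun z => z - x ∈ Z))
  have h4 := card_union_le Y (univ.filter (fun z => z - x ∈ Z))
  have h5 := card_le_card h1
  omega

theorem robust {c : ℝ} (hc : 0 < c) (S : Finset G) (h1 : (3 / 5 + c) * Fintype.card G ≤ S.card)
    (h2 : ∀ L : AddSubgroup G, L.index = 3 → ∃ T : Finset G, (∀ x ∈ T, x ∈ S ∧ x ∈ L) ∧
      c * Fintype.card G ≤ T.card) (X : ℕ → ℕ → Finset G)
    (hX : ∀ i j, ((X i j).card : ℝ) ≤ c / 2 * Fintype.card G) :
    ∃ y : ℕ → G, ∀ i j, i < j → j < 4 → y j - y i ∈ S ∧ y j - y i ∉ X i j := by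
  classical
  by_contra hcon
  obtain ⟨n, hn⟩ : ∃ n, n = Fintype.card G := ⟨_, rfl⟩
  have hn0 : (0 : ℝ) < n := by
    rw [hn]
    exact_mod_cast Fintype.card_pos
  rw [← hn] at h1 h2 hX
  have hcn : 0 < c * n := mul_pos hc hn0
  have hc1 : (S.card : ℝ) + Sᶜ.card = n := by
    rw [hn]
    exact_mod_cast card_add_card_compl S
  -- the point `x`
  obtain ⟨x, hx⟩ : ∃ x, x ∈ S \ X 0 1 := by
    by_contra h
    push Not at h
    have h3 : S ⊆ X 0 1 := fun a ha => by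
      by_contra h4
      exact h a (mem_sdiff.2 ⟨ha, h4⟩)
    have h4 : (S.card : ℝ) ≤ (X 0 1).card := by exact_mod_cast card_le_card h3
    have h5 := hX 0 1
    nlinarith
  rw [mem_sdiff] at hx
  obtain ⟨A, hA⟩ : ∃ A, A = S.filter (fun z => z ∉ X 0 2 ∧ z - x ∈ S ∧ z - x ∉ X 1 2) := ⟨_, rfl⟩
  obtain ⟨B, hB⟩ : ∃ B, B = S.filter (fun z => z ∉ X 0 3 ∧ z - x ∈ S ∧ z - x ∉ X 1 3) := ⟨_, rfl⟩
  have hcount : ((S.filter (fun z => z - x ∈ S)).card : ℝ) + 2 * Sᶜ.card =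
      n + (Sᶜ.filter (fun z => z - x ∈ Sᶜ)).card := by
    rw [hn]
    exact_mod_cast count S x
  have hR0 : (0 : ℝ) ≤ (Sᶜ.filter (fun z => z - x ∈ Sᶜ)).card := Nat.cast_nonneg _
  have hI : (1 / 5 + 2 * c) * n ≤ (S.filter (fun z => z - x ∈ S)).card := by nlinarith
  have hAc : (1 / 5 + c) * n ≤ A.card := by
    have h3 : ((S.filter (fun z => z - x ∈ S)).card : ℝ) ≤ A.card + ((X 0 2).card + (X 1 2).card) := by
      rw [hA]
      exact_mod_cast card_nb S x (X 0 2) (X 1 2)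
    have h4 := hX 0 2
    have h5 := hX 1 2
    nlinarith
  have hBc : (1 / 5 + c) * n ≤ B.card := by
    have h3 : ((S.filter (fun z => z - x ∈ S)).card : ℝ) ≤ B.card + ((X 0 3).card + (X 1 3).card) := by
      rw [hB]
      exact_mod_cast card_nb S x (X 0 3) (X 1 3)
    have h4 := hX 0 3
    have h5 := hX 1 3
    nlinarith
  have hAne : A.Nonempty := by
    rw [← card_pos]
    have : (0 : ℝ) < A.card := by nlinarith
    exact_mod_cast this
  have hBne : B.Nonempty := by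
    rw [← card_pos]
    have : (0 : ℝ) < B.card := by nlinarith
    exact_mod_cast this
  -- a common point
  obtain ⟨b0, hb0A, hb0B⟩ : ∃ b, b ∈ A ∧ b ∈ B := by
    by_contra h
    push Not at h
    have h3 : Disjoint A B := disjoint_left.2 h
    have h4 : A ∪ B ⊆ S.filter (fun z => z - x ∈ S) := by
      intro z hz
      rw [mem_filter]
      rcases mem_union.1 hz with h | h
      · rw [hA, mem_filter] at h
        exact ⟨h.1, h.2.2.1⟩
      · rw [hB, mem_filter] at h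
        exact ⟨h.1, h.2.2.1⟩
    have h5 := card_le_card h4
    rw [card_union_of_disjoint h3] at h5
    have h6 : (A.card : ℝ) + B.card ≤ (S.filter (fun z => z - x ∈ S)).card := by exact_mod_cast h5
    have h7 : ((S.filter (fun z => z - x ∈ S)).card : ℝ) ≤ A.card + ((X 0 2).card + (X 1 2).card) := by
      rw [hA]
      exact_mod_cast card_nb S x (X 0 2) (X 1 2)
    have h8 := hX 0 2
    have h9 := hX 1 2
    nlinarith
  obtain ⟨D, H, hD, hH, hk⟩ := kneser_quot A B hAne hBne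
  have hDX : ∀ d ∈ D, d ∈ S → d ∈ X 2 3 := by
    intro d hd hdS
    by_contra hdX
    obtain ⟨a, ha, b, hb, rfl⟩ := (hD d).1 hd
    rw [hA, mem_filter] at ha
    rw [hB, mem_filter] at hb
    exact hcon (pts_of hx ⟨ha.1, ha.2.1⟩ ⟨hb.1, hb.2.1⟩ ha.2.2 hb.2.2 ⟨hdS, hdX⟩)
  obtain ⟨k, hkk⟩ : ∃ k, k = (A.image (fun x : G => (x : G ⧸ H))).card := ⟨_, rfl⟩
  obtain ⟨l, hll⟩ : ∃ l, l = (B.image (fun x : G => (x : G ⧸ H))).card := ⟨_, rfl⟩
  obtain ⟨w, hww⟩ : ∃ w, w = (D.image (fun x : G => (x : G ⧸ H))).card := ⟨_, rfl⟩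
  rw [← hkk, ← hll, ← hww] at hk
  have hDc := card_per hH
  rw [← hww] at hDc
  have hAk : A.card ≤ k * (fs H).card := by
    rw [hkk, ← card_add_fs]
    refine card_le_card fun a ha => mem_add.2 ⟨a, ha, 0, mem_fs.2 H.zero_mem, add_zero a⟩
  have hBl : B.card ≤ l * (fs H).card := by
    rw [hll, ← card_add_fs]
    refine card_le_card fun a ha => mem_add.2 ⟨a, ha, 0, mem_fs.2 H.zero_mem, add_zero a⟩
  have hq := card_quot H
  have hh := fs_card_pos H
  let _ : Fintype (G ⧸ H) := Fintype.ofFinite _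
  rw [Nat.card_eq_fintype_card, ← hn] at hq
  obtain ⟨m, hm⟩ : ∃ m, m = Fintype.card (G ⧸ H) := ⟨_, rfl⟩
  obtain ⟨h, hhh⟩ : ∃ h, h = (fs H).card := ⟨_, rfl⟩
  rw [← hm] at hq
  rw [← hhh] at hq hh hAk hBl hDc
  -- real versions
  have rh : (0 : ℝ) < h := by exact_mod_cast hh
  have rq : (n : ℝ) = m * h := by exact_mod_cast hq
  have rA : (A.card : ℝ) ≤ k * h := by exact_mod_cast hAk
  have rB : (B.card : ℝ) ≤ l * h := by exact_mod_cast hBl
  have rD : (D.card : ℝ) = w * h := by exact_mod_cast hDc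
  have rk : (k : ℝ) + l ≤ w + 1 := by exact_mod_cast hk
  have rX : (D.card : ℝ) ≤ (Sᶜ ∩ D).card + (X 2 3).card := by
    have h3 : D ⊆ (Sᶜ ∩ D) ∪ X 2 3 := by
      intro d hd
      rw [mem_union, mem_inter, mem_compl]
      by_cases h4 : d ∈ S
      · exact Or.inr (hDX d hd h4)
      · exact Or.inl ⟨h4, hd⟩
    exact_mod_cast (card_le_card h3).trans (card_union_le _ _)
  have rPD : ((Sᶜ ∩ D).card : ℝ) ≤ Sᶜ.card := by exact_mod_cast card_le_card inter_subset_left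
  have r23 := hX 2 3
  have rwh : (w : ℝ) * h ≤ (2 / 5 - c / 2) * n := by nlinarith
  have e1 : 5 * w < 2 * m := by
    have h3 : (5 * w : ℝ) * h < (2 * m) * h := by nlinarith
    have h4 := lt_of_mul_lt_mul_right h3 rh.le
    exact_mod_cast h4
  have hQ : 3 * Fintype.card (G ⧸ H) < 5 * ((D.image (fun x : G => (x : G ⧸ H)))ᶜ).card := by
    rw [card_compl, ← hm, ← hww]
    omega
  have h00 : (0 : G ⧸ H) ∉ (D.image (fun x : G => (x : G ⧸ H)))ᶜ := by
    rw [mem_compl, not_not, mem_image]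
    exact ⟨0, (hD 0).2 ⟨b0, hb0A, b0, hb0B, by simp⟩, rfl⟩
  rcases exact_three _ hQ with ⟨y', hy'⟩ | ⟨L', hL', hL2⟩
  · obtain ⟨e, he⟩ : ∃ e, e = ⌊c / 2 * n⌋₊ := ⟨_, rfl⟩
    have he1 : (e : ℝ) ≤ c / 2 * n := by
      rw [he]
      exact Nat.floor_le (by positivity)
    refine hcon (lift H S _ y' hy' h00 (Sᶜ \ D) (fun a ha haM => ?_) X e (fun i j => ?_) ?_)
    · by_contra haS
      apply haM
      rw [mem_sdiff]
      refine ⟨mem_compl.2 haS, fun haD => ?_⟩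
      exact (mem_compl.1 ha) (mem_image_of_mem _ haD)
    · rw [he]
      exact Nat.le_floor (hX i j)
    · rw [← hhh]
      have h3 : ((Sᶜ \ D).card : ℝ) + (Sᶜ ∩ D).card = Sᶜ.card := by
        exact_mod_cast card_sdiff_add_card_inter Sᶜ D
      have h4 : ((Sᶜ \ D).card : ℝ) + 3 * e < h := by nlinarith
      exact_mod_cast h4
  · obtain ⟨T, hT, hT2⟩ := h2 (L'.comap (QuotientAddGroup.mk' H)) (by
      rw [AddSubgroup.index_comap_of_surjective _ (QuotientAddGroup.mk'_surjective H), hL'])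
    have h3 : T ⊆ X 2 3 := by
      intro a ha
      obtain ⟨haS, haL⟩ := hT a ha
      have h5 : (a : G ⧸ H) ∈ L' := haL
      have h6 := hL2 _ h5
      rw [mem_compl, not_not] at h6
      exact hDX a (mem_of_image hH h6) haS
    have h4 : (T.card : ℝ) ≤ (X 2 3).card := by exact_mod_cast card_le_card h3
    nlinarith

end Pool.Agent.Helper6.Gaps
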