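import Pool.Agent.Helper6.Gaps.Net
import Pool.Agent.Helper6.Gaps.Robust
import Pool.Graph.R_seed8.W25.TF.Low

set_option autoImplicit false
open Filter Topology Finset
open scoped BoundedContinuousFunction

/-! Lower bound for the iterated mean of four points. -/

namespace Pool.Agent.Helper6.Gaps

open Pool.Agent.W634.BQ Pool.Agent.W505.BQ Pool.Agent.W27.FB Pool.Agent.W142.TF
open Pool.Agent.W25.TF.Low (Dd Dd_bd lemB It_prod prs prs_card mem_prs FP_bd)

/-- the residues at which `P` is not small -/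
noncomputable def big (P : ℤ →ᵇ ℝ) (τ : ℝ) (N : ℕ) [NeZero N] : Finset (ZMod N) := by
  classical
  exact univ.filter (fun z : ZMod N => τ ≤ P (z.val : ℤ))

theorem mem_big {P : ℤ →ᵇ ℝ} {τ : ℝ} {N : ℕ} [NeZero N] {z : ZMod N} : z ∈ big P τ N ↔ τ ≤ P (z.val : ℤ) := by
  classical
  unfold big
  rw [mem_filter]
  exact ⟨fun h => h.2, fun h => ⟨mem_univ _, h⟩⟩

theorem card_mod (N : ℕ) [NeZero N] (p : ℕ → Prop) [DecidablePred p] :
    ((univ : Finset (ZMod N)).filter (fun z => p z.val)).card = ((range N).filter p).card := by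
  refine card_bij (fun z _ => z.val) (fun z hz => ?_) (fun a _ b _ h => ZMod.val_injective N h) fun k hk => ?_
  · rw [mem_filter] at hz ⊢
    exact ⟨mem_range.2 (ZMod.val_lt z), hz.2⟩
  · rw [mem_filter, mem_range] at hk
    refine ⟨(k : ZMod N), ?_, ZMod.val_cast_of_lt hk.1⟩
    rw [mem_filter]
    refine ⟨mem_univ _, ?_⟩
    rw [ZMod.val_cast_of_lt hk.1]
    exact hk.2

open Classical in
theorem markov (f : ℤ →ᵇ ℝ) (hf : ∀ n, 0 ≤ f n ∧ f n ≤ 1) (τ : ℝ) (hτ : 0 ≤ τ) (N : ℕ) :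
    ∑ z ∈ range N, f z ≤ ((range N).filter (fun z : ℕ => τ ≤ f z)).card + τ * N := by
  rw [← sum_filter_add_sum_filter_not (range N) (fun z : ℕ => τ ≤ f z)]
  refine add_le_add ?_ ?_
  · have := sum_le_card_nsmul ((range N).filter (fun z : ℕ => τ ≤ f z)) (fun z : ℕ => f z) 1 (fun z _ => (hf z).2)
    rwa [nsmul_eq_mul, mul_one] at this
  · have := sum_le_card_nsmul ((range N).filter (fun z : ℕ => ¬ τ ≤ f z)) (fun z : ℕ => f z) τ (fun z hz => by
      have := (mem_filter.1 hz).2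
      linarith)
    rw [nsmul_eq_mul] at this
    refine this.trans ?_
    have h1 : (((range N).filter (fun z : ℕ => ¬ τ ≤ f z)).card : ℝ) ≤ N := by
      have := card_filter_le (range N) (fun z : ℕ => ¬ τ ≤ f z)
      rw [card_range] at this
      exact_mod_cast this
    nlinarith

theorem big_card {P : ℤ →ᵇ ℝ} (hP : ∀ n, 0 ≤ P n ∧ P n ≤ 1) {c δ : ℝ} (hc : 0 < c) (hδ : δ = c / 64) {N : ℕ}
    [NeZero N] {t : ℤ → ℕ} (hN : Period P δ N t) {m : (ℤ →ᵇ ℝ) →ₗ[ℝ] ℝ} (hm : IsMean m)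
    (h1 : 3 / 5 + 2 * c ≤ m P) (h3 : 2 * c ≤ m (cls 3 0 * P)) :
    (3 / 5 + c) * Fintype.card (ZMod N) ≤ (big P (c / 4) N).card ∧
    ∀ L : AddSubgroup (ZMod N), L.index = 3 → ∃ T : Finset (ZMod N),
      (∀ x ∈ T, x ∈ big P (c / 4) N ∧ x ∈ L) ∧ c * Fintype.card (ZMod N) ≤ T.card := by
  classical
  rw [ZMod.card]
  have hN0 : (0 : ℝ) < N := by exact_mod_cast hN.pos
  constructor
  · have h2 := (abs_le.1 (hN.mean m hm)).1
    have h4 := markov P hP (c / 4) (by positivity) N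
    have h5 : (big P (c / 4) N).card = ((range N).filter (fun z : ℕ => c / 4 ≤ P z)).card := by
      rw [← card_mod N (fun z => c / 4 ≤ P z)]
      unfold big
      congr
    rw [h5]
    rw [hδ] at h2
    nlinarith
  · intro L hL
    refine ⟨univ.filter (fun z : ZMod N => c / 4 ≤ P (z.val : ℤ) ∧ 3 ∣ z.val), fun x hx => ?_, ?_⟩
    · rw [mem_filter] at hx
      refine ⟨mem_big.2 hx.2.1, ?_⟩
      obtain ⟨k, hk⟩ := hx.2.2
      have h2 : x = 3 • (k : ZMod N) := by
        have h4 := ZMod.natCast_zmod_val x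
        rw [hk] at h4
        rw [← h4]
        push_cast
        rw [nsmul_eq_mul]
        push_cast
        ring
      rw [h2, ← hL]
      exact AddSubgroup.nsmul_index_mem L _
    · have h2 := (abs_le.1 (hN.mean3 m hm)).1
      have hc01 := Pool.Agent.W681.TF.cls_01 3 0
      have h4 := markov (cls 3 0 * P) (fun n => by
        rw [BoundedContinuousFunction.coe_mul, Pi.mul_apply]
        exact ⟨mul_nonneg (hc01 n).1 (hP n).1, mul_le_one₀ (hc01 n).2 (hP n).1 (hP n).2⟩) (c / 4) (by positivity) N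
      have h5 : ((range N).filter (fun z : ℕ => c / 4 ≤ (cls 3 0 * P) z)).card ≤
          (univ.filter (fun z : ZMod N => c / 4 ≤ P (z.val : ℤ) ∧ 3 ∣ z.val)).card := by
        have hcm := card_mod N (fun z => c / 4 ≤ P z ∧ 3 ∣ z)
        refine le_trans ?_ (le_of_eq hcm.symm)
        refine card_le_card fun z hz => ?_
        rw [mem_filter] at hz ⊢
        refine ⟨hz.1, ?_⟩
        have h6 := hz.2
        rw [BoundedContinuousFunction.coe_mul, Pi.mul_apply] at h6
        rcases Pool.Agent.W25.TF.Low.cls_sp 3 0 (z : ℤ) with ⟨h7, h8⟩ | ⟨h7, h8⟩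
        · rw [h7, one_mul] at h6
          refine ⟨h6, ?_⟩
          rw [sub_zero] at h8
          exact_mod_cast h8
        · rw [h7, zero_mul] at h6
          linarith
      have h6 : (((range N).filter (fun z : ℕ => c / 4 ≤ (cls 3 0 * P) z)).card : ℝ) ≤
          (univ.filter (fun z : ZMod N => c / 4 ≤ P (z.val : ℤ) ∧ 3 ∣ z.val)).card := by exact_mod_cast h5
      rw [hδ] at h2
      nlinarith

/-- the values at integers which are congruent modulo a period -/
theorem per_two {P : ℤ →ᵇ ℝ} {δ : ℝ} {N : ℕ} {t : ℤ → ℕ} (hδ : 0 ≤ δ) (hN : Period P δ N t) {v w : ℤ}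
    (h : (N : ℤ) ∣ v - w) (h1 : v - w < 3 * N) (h2 : -(3 * N) < v - w) : |P v - P w| ≤ 2 * δ := by
  obtain ⟨k, hk⟩ := h
  have hN0 : (0 : ℤ) < N := by exact_mod_cast hN.pos
  have hk1 : k < 3 := by
    by_contra hlt
    push Not at hlt
    nlinarith
  have hk2 : -3 < k := by
    by_contra hlt
    push Not at hlt
    nlinarith
  have e : v = w + N * k := by linarith
  have key : ∀ x : ℤ, |P (x + N) - P x| ≤ δ := hN.per
  have hcase : k = -2 ∨ k = -1 ∨ k = 0 ∨ k = 1 ∨ k = 2 := by omega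
  rcases hcase with rfl | rfl | rfl | rfl | rfl
  · have h3 := abs_le.1 (key (w + N * (-2)))
    have h4 := abs_le.1 (key (w + N * (-1)))
    have e1 : w + N * (-2) + N = w + N * (-1) := by ring
    have e2 : w + N * (-1) + N = w := by ring
    rw [e1] at h3
    rw [e2] at h4
    rw [e, abs_le]
    constructor <;> linarith [h3.1, h3.2, h4.1, h4.2]
  · have h4 := abs_le.1 (key (w + N * (-1)))
    have e2 : w + N * (-1) + N = w := by ring
    rw [e2] at h4
    rw [e, abs_le]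
    constructor <;> linarith [h4.1, h4.2]
  · rw [e]
    simp
    linarith
  · have h4 := abs_le.1 (key w)
    have e2 : w + N * 1 = w + N := by ring
    rw [e, e2, abs_le]
    constructor <;> linarith [h4.1, h4.2]
  · have h3 := abs_le.1 (key w)
    have h4 := abs_le.1 (key (w + N))
    have e1 : w + N * 2 = w + N + N := by ring
    rw [e, e1, abs_le]
    constructor <;> linarith [h3.1, h3.2, h4.1, h4.2]

/-- the exceptional residues -/
noncomputable def exc (g : ℤ →ᵇ ℝ) (θ : ℝ) (N : ℕ) (x : ℤ) (u : ℤ) : Finset (ZMod N) := by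
  classical
  exact ((range N).filter (fun z : ℕ => θ < g (x + z))).image (fun z : ℕ => ((z + u : ℤ) : ZMod N)) ∪
    ((range N).filter (fun z : ℕ => θ < g (x + ((z : ℤ) - N)))).image (fun z : ℕ => ((z - N + u : ℤ) : ZMod N))

theorem exc_card (g : ℤ →ᵇ ℝ) (hg : ∀ x, 0 ≤ g x) (θ : ℝ) (N : ℕ) (x u : ℤ) :
    θ * (exc g θ N x u).card ≤ Dd g 1 1 N x := by
  classical
  have h1 : (exc g θ N x u).card ≤ ((range N).filter (fun z : ℕ => θ < g (x + z))).card +
      ((range N).filter (fun z : ℕ => θ < g (x + ((z : ℤ) - N)))).card := by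
    unfold exc
    exact (card_union_le _ _).trans (add_le_add card_image_le card_image_le)
  have h2 : ∀ f : ℕ → ℝ, (∀ z, 0 ≤ f z) → θ * ((range N).filter (fun z : ℕ => θ < f z)).card ≤ ∑ z ∈ range N, f z := by
    intro f hf
    have h3 := card_nsmul_le_sum ((range N).filter (fun z : ℕ => θ < f z)) f θ
      (fun z hz => ((mem_filter.1 hz).2).le)
    rw [nsmul_eq_mul] at h3
    rw [mul_comm]
    exact h3.trans (sum_le_sum_of_subset_of_nonneg (filter_subset _ _) (fun z _ _ => hf z))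
  by_cases hθ : 0 ≤ θ
  · unfold Dd
    rw [sum_add_distrib]
    have h3 := h2 (fun z => g (x + z)) (fun z => hg _)
    have h4 := h2 (fun z => g (x + ((z : ℤ) - N))) (fun z => hg _)
    have h5 : ((exc g θ N x u).card : ℝ) ≤ ((range N).filter (fun z : ℕ => θ < g (x + z))).card +
        ((range N).filter (fun z : ℕ => θ < g (x + ((z : ℤ) - N)))).card := by exact_mod_cast h1
    have h6 := mul_le_mul_of_nonneg_left h5 hθ
    have e1 : ∑ z ∈ range N, g (x + ((1 : ℕ) : ℤ) * ((1 : ℕ) : ℤ) * z) = ∑ z ∈ range N, g (x + z) :=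
      sum_congr rfl fun z _ => by simp
    have e2 : ∑ z ∈ range N, g (x + ((1 : ℕ) : ℤ) * ((1 : ℕ) : ℤ) * ((z : ℤ) - N)) =
        ∑ z ∈ range N, g (x + ((z : ℤ) - N)) := sum_congr rfl fun z _ => by simp
    rw [e1, e2]
    linarith
  · push Not at hθ
    have h3 : 0 ≤ Dd g 1 1 N x := by
      unfold Dd
      exact sum_nonneg fun z _ => add_nonneg (hg _) (hg _)
    have h4 : (0 : ℝ) ≤ (exc g θ N x u).card := Nat.cast_nonneg _
    nlinarith

theorem not_exc {g : ℤ →ᵇ ℝ} {θ : ℝ} {N : ℕ} {x u w : ℤ} (h1 : w < N) (h2 : -(N : ℤ) ≤ w)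
    (h : ((w + u : ℤ) : ZMod N) ∉ exc g θ N x u) : g (x + w) ≤ θ := by
  classical
  by_contra hlt
  push Not at hlt
  apply h
  unfold exc
  rw [mem_union, mem_image, mem_image]
  rcases le_total 0 w with h3 | h3
  · left
    refine ⟨w.toNat, ?_, ?_⟩
    · rw [mem_filter, mem_range]
      refine ⟨by omega, ?_⟩
      rw [Int.toNat_of_nonneg h3]
      exact hlt
    · rw [Int.toNat_of_nonneg h3]
  · rcases h3.eq_or_lt with h4 | h4
    · left
      subst h4
      refine ⟨0, ?_, by simp⟩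
      rw [mem_filter, mem_range]
      refine ⟨by omega, ?_⟩
      simpa using hlt
    · right
      refine ⟨(w + N).toNat, ?_, ?_⟩
      · rw [mem_filter, mem_range]
        refine ⟨by omega, ?_⟩
        rw [Int.toNat_of_nonneg (by omega)]
        rw [add_sub_cancel_right]
        exact hlt
      · rw [Int.toNat_of_nonneg (by omega)]
        congr 1
        ring

/-- four points in the finite model -/
theorem model {P P' : ℤ →ᵇ ℝ} (hP : ∀ n, 0 ≤ P n ∧ P n ≤ 1) {c δ : ℝ} (hc : 0 < c) (hδ : δ = c / 64) {N : ℕ}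
    {t : ℤ → ℕ} (hN : Period P δ N t) {m : (ℤ →ᵇ ℝ) →ₗ[ℝ] ℝ} (hm : IsMean m)
    (h1 : 3 / 5 + 2 * c ≤ m P) (h3 : 2 * c ≤ m (cls 3 0 * P)) (a : ℕ → ℤ)
    (hD : ∀ i j, i < j → j < 4 → Dd ((P' - P) * (P' - P)) 1 1 N (a j - a i) ≤ (c / 16) ^ 2 * (c / 2) * N) :
    ∃ z : ℕ → ℕ, (∀ j, z j < N) ∧ ∀ i j, i < j → j < 4 → c / 8 ≤ P' ((a j + z j) - (a i + z i)) := by
  classical
  have : NeZero N := ⟨by have := hN.pos; omega⟩
  have hN0 : (0 : ℝ) < N := by exact_mod_cast hN.pos
  obtain ⟨hb1, hb2⟩ := big_card hP hc hδ hN hm h1 h3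
  obtain ⟨g, hg⟩ : ∃ g, g = (P' - P) * (P' - P) := ⟨_, rfl⟩
  have hgx : ∀ x, g x = (P' x - P x) ^ 2 := by
    intro x
    rw [hg, BoundedContinuousFunction.coe_mul, Pi.mul_apply, BoundedContinuousFunction.coe_sub, Pi.sub_apply]
    ring
  have hg0 : ∀ x, 0 ≤ g x := fun x => by rw [hgx]; exact sq_nonneg _
  rw [← hg] at hD
  obtain ⟨y, hy⟩ := robust hc (big P (c / 4) N) hb1 hb2
    (fun i j => if i < j ∧ j < 4 then exc g ((c / 16) ^ 2) N (a j - a i) ((t (a j) : ℤ) - t (a i)) else ∅)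
    (fun i j => by
      split_ifs with h
      · have h5 := exc_card g hg0 ((c / 16) ^ 2) N (a j - a i) ((t (a j) : ℤ) - t (a i))
        have h6 := h5.trans (hD i j h.1 h.2)
        rw [ZMod.card]
        have h7 : 0 < (c / 16) ^ 2 := by positivity
        have h8 : (c / 16) ^ 2 * ((exc g ((c / 16) ^ 2) N (a j - a i) ((t (a j) : ℤ) - t (a i))).card : ℝ) ≤
            (c / 16) ^ 2 * (c / 2 * N) := by linarith
        exact le_of_mul_le_mul_left h8 h7
      · rw [card_empty, Nat.cast_zero]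
        positivity)
  refine ⟨fun j => (y j - (t (a j) : ZMod N)).val, fun j => ZMod.val_lt _, fun i j hij hj => ?_⟩
  obtain ⟨hy1, hy2⟩ := hy i j hij hj
  simp only [hij, hj, and_self, if_true] at hy2
  obtain ⟨zj, hzj⟩ : ∃ z, z = (y j - (t (a j) : ZMod N)).val := ⟨_, rfl⟩
  obtain ⟨zi, hzi⟩ : ∃ z, z = (y i - (t (a i) : ZMod N)).val := ⟨_, rfl⟩
  have hzjN : zj < N := by rw [hzj]; exact ZMod.val_lt _
  have hziN : zi < N := by rw [hzi]; exact ZMod.val_lt _
  have hzj' : ((zj : ℤ) : ZMod N) = y j - (t (a j) : ZMod N) := by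
    rw [hzj, Int.cast_natCast, ZMod.natCast_zmod_val]
  have hzi' : ((zi : ℤ) : ZMod N) = y i - (t (a i) : ZMod N) := by
    rw [hzi, Int.cast_natCast, ZMod.natCast_zmod_val]
  show c / 8 ≤ P' ((a j + ((y j - (t (a j) : ZMod N)).val : ℕ)) - (a i + ((y i - (t (a i) : ZMod N)).val : ℕ)))
  rw [← hzj, ← hzi]
  obtain ⟨w, hw⟩ : ∃ w : ℤ, w = (zj : ℤ) - zi := ⟨_, rfl⟩
  have e0 : a j + (zj : ℤ) - (a i + (zi : ℤ)) = (a j - a i) + w := by rw [hw]; ring
  rw [e0]
  have hwu : ((w + ((t (a j) : ℤ) - t (a i)) : ℤ) : ZMod N) = y j - y i := by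
    rw [hw]
    push_cast
    have h5 : ((zj : ℕ) : ZMod N) = y j - (t (a j) : ZMod N) := by
      rw [← hzj', Int.cast_natCast]
    have h6 : ((zi : ℕ) : ZMod N) = y i - (t (a i) : ZMod N) := by
      rw [← hzi', Int.cast_natCast]
    rw [h5, h6]
    ring
  rw [← hwu] at hy2
  have hgw := not_exc (by omega) (by omega) hy2
  rw [hgx] at hgw
  have hdiff : |P' (a j - a i + w) - P (a j - a i + w)| ≤ c / 16 := abs_le_of_sq_le_sq hgw (by positivity)
  -- the value of `P`
  have h5 := hN.net (a j) (w - a i)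
  have h6 := hN.net (a i) (w - a i + t (a j) - t (a i))
  have e1 : w - a i + a j = a j - a i + w := by ring
  have e2 : w - a i + (t (a j) : ℤ) - t (a i) + a i = w + (t (a j) : ℤ) - t (a i) := by ring
  have e3 : w - a i + (t (a j) : ℤ) - t (a i) + t (a i) = w - a i + t (a j) := by ring
  rw [e1] at h5
  rw [e2, e3] at h6
  have h7 : |P (w + (t (a j) : ℤ) - t (a i)) - P ((y j - y i).val : ℤ)| ≤ 2 * δ := by
    refine per_two (by rw [hδ]; positivity) hN ?_ ?_ ?_
    · rw [← ZMod.intCast_zmod_eq_zero_iff_dvd]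
      push_cast
      rw [ZMod.natCast_zmod_val, ← hwu]
      push_cast
      ring
    · have h8 := hN.lt (a j)
      have h9 := hN.lt (a i)
      omega
    · have h8 := hN.lt (a j)
      have h9 := hN.lt (a i)
      have h10 := ZMod.val_lt (y j - y i)
      omega
  have h8 := mem_big.1 hy1
  have a5 := abs_le.1 h5
  have a6 := abs_le.1 h6
  have a7 := abs_le.1 h7
  have a8 := abs_le.1 hdiff
  rw [hδ] at a5 a6 a7
  linarith [a5.1, a5.2, a6.1, a6.2, a7.1, a7.2, a8.1, a8.2]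

end Pool.Agent.Helper6.Gaps
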