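import Pool.Agent.Helper6.Gaps.Avg
import Pool.Graph.R_pool_sql_team_seeded_f72693b1.W782.FN.Mean

set_option autoImplicit false
open Filter Topology Finset
open scoped BoundedContinuousFunction

/-! Sets of integers without four large classes of numbers all of whose differences lie in the set. -/

namespace Pool.Agent.Helper6.Gaps

open Pool.Agent.W634.BQ Pool.Agent.W505.BQ Pool.Agent.W27.FB Pool.Agent.W142.TF

/-- four classes of `K` integers all of whose differences (later class minus earlier class) lie in `U` -/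
def Boxes (U : Set ℤ) (K : ℕ) : Prop :=
  ∃ A : ℕ → ℕ → ℤ, (∀ j, Set.InjOn (A j) {k | k < K}) ∧
    ∀ i j, i < j → j < 4 → ∀ k k', k < K → k' < K → A j k - A i k' ∈ U

theorem boxes_of {U : Set ℤ} {m : ℕ → ((ℤ →ᵇ ℝ) →ₗ[ℝ] ℝ)} (hm : ∀ j, IsMean (m j)) (K : ℕ)
    {F : (ℕ → ℤ) → ℝ} (hF : ∀ a, 0 ≤ F a ∧ F a ≤ 1)
    (hE : ∀ a, F a ≠ 0 → ∀ i j, i < j → j < 4 → a j - a i ∈ U) (h : 0 < It m 4 F) : Boxes U K := by
  classical
  have hpos : 0 < It m 4 (fun a => if (∀ i j, i < j → j < 4 → a j - a i ∈ U) then 1 else 0) := by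
    refine lt_of_lt_of_le h (It_mono hm 4 (C := 1) (D := 1) (fun a => ?_) (fun a => ?_) fun a => ?_)
    · rw [abs_of_nonneg (hF a).1]
      exact (hF a).2
    · split_ifs <;> simp
    · split_ifs with h1
      · exact (hF a).2
      · by_contra h2
        push Not at h2
        exact h1 (hE a h2.ne')
  obtain ⟨A, hinj, hAE⟩ := Pool.Agent.W597.TF.blo m hm 4 K _ hpos
  refine ⟨A, hinj, ?_⟩
  intro i j hij hj k k' hk hk'
  have h := hAE (fun l => if l = j then k else k') (fun l _ => by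
    split_ifs <;> assumption) i j hij hj
  have hi : i < 4 := hij.trans hj
  simp only [hj, hi, if_true, hij.ne, if_false] at h
  exact h

theorem co_one_trig : co (1 : ℤ →ᵇ ℝ) ∈ Trig := by
  have h : co (1 : ℤ →ᵇ ℝ) = 1 := by
    ext n
    simp
  rw [h]
  exact Pool.Agent.W975.FN.trg.1

theorem part1 {U : Set ℤ} {m : (ℤ →ᵇ ℝ) →ₗ[ℝ] ℝ} (hm : IsMean m) (hE : Extr m) {c : ℝ} (hc : 0 < c)
    (h : 3 / 5 + 3 * c ≤ m (ind U)) (h3 : 3 * c ≤ m (cls 3 0 * ind U)) (K : ℕ) : Boxes U K := by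
  have hth : 0 < th c := by unfold th; positivity
  obtain ⟨ε, hε⟩ : ∃ ε, ε = min c (th c / 80) := ⟨_, rfl⟩
  have hε0 : 0 < ε := by rw [hε]; exact lt_min hc (by positivity)
  have hεc : ε ≤ c := by rw [hε]; exact min_le_left _ _
  have hεt : ε ≤ th c / 80 := by rw [hε]; exact min_le_right _ _
  obtain ⟨P, hP1, hP2, hP3⟩ := s_appr m hm hE U ε hε0
  have hA : App m U P ε := ⟨hP1, hP2, hP3⟩
  have hmP : 3 / 5 + 2 * c ≤ m P := by
    have h1 := (abs_le.1 (Pool.Agent.W681.TF.app_one hA 1 co_one_trig (fun n => by simp))).2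
    rw [one_mul, map_sub] at h1
    linarith
  have hcl : Tr01 (cls 3 0) := Pool.Agent.W681.TF.tr01_cls 3 0 (by norm_num)
  have hmP3 : 2 * c ≤ m (cls 3 0 * P) := by
    have h1 := (abs_le.1 (Pool.Agent.W681.TF.app_one hA (cls 3 0) hcl.1 (fun n => by
      rw [abs_of_nonneg (hcl.2 n).1]
      exact (hcl.2 n).2))).2
    rw [mul_sub, map_sub] at h1
    linarith
  obtain ⟨c₀, hc₀, hlow⟩ := low hc ⟨hP1, hP2⟩ hm hmP hmP3
  obtain ⟨ε', hε'⟩ : ∃ ε', ε' = min ε (c₀ / 100) := ⟨_, rfl⟩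
  have hε'0 : 0 < ε' := by rw [hε']; exact lt_min hε0 (by positivity)
  have hε'1 : ε' ≤ ε := by rw [hε']; exact min_le_left _ _
  have hε'2 : ε' ≤ c₀ / 100 := by rw [hε']; exact min_le_right _ _
  obtain ⟨P', hP'1, hP'2, hP'3⟩ := s_appr m hm hE U ε' hε'0
  have hA' : App m U P' ε' := ⟨hP'1, hP'2, hP'3⟩
  have hb : co (P' - P) ∈ Trig := by
    have h : co (P' - P) = co P' - co P := by
      ext n
      simp
    rw [h]
    exact Submodule.sub_mem _ hP'1 hP1
  have hb1 : ∀ n, |(P' - P) n| ≤ 1 := by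
    intro n
    rw [BoundedContinuousFunction.coe_sub, Pi.sub_apply, abs_le]
    have h1 := hP2 n
    have h2 := hP'2 n
    constructor <;> linarith [h1.1, h1.2, h2.1, h2.2]
  have hD : m ((P' - P) * (P' - P)) ≤ ε + ε' := by
    have h1 := (abs_le.1 (Pool.Agent.W681.TF.app_one hA (P' - P) hb hb1)).2
    have h2 := (abs_le.1 (Pool.Agent.W681.TF.app_one hA' (P' - P) hb hb1)).1
    have e : (P' - P) * (P' - P) = (P' - P) * (ind U - P) - (P' - P) * (ind U - P') := by ring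
    rw [e, map_sub]
    linarith
  have hlow4 := hlow P' hP'2 (by linarith)
  have hcmp4 := s_cmp (fun _ => m) (fun _ => hm) (fun _ => U) (fun _ => P') ε' hε'0 (fun _ => hA')
    (fun _ _ => 1) (fun _ _ => le_rfl) 4 (fun _ => cls 1 0)
    (fun _ => Pool.Agent.W681.TF.tr01_cls 1 0 le_rfl)
  have hcls01 : ∀ (j : ℕ) (n : ℤ), 0 ≤ (fun _ : ℕ => cls 1 0) j n ∧ (fun _ : ℕ => cls 1 0) j n ≤ 1 :=
    fun j n => ind01 _ _
  refine boxes_of (fun _ => hm) K (F := FV (fun _ => cls 1 0) (fun _ => U) (fun _ _ => 1) 4)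
    (fun a => FV_01 _ _ _ hcls01 4 a) ?_ ?_
  · intro a ha i j hij hj
    by_contra hn
    apply ha
    refine prod_eq_zero (mem_range.2 hj) ?_
    rw [prod_eq_zero (mem_range.2 hij) (ind_notMem (by
      rw [Nat.cast_one, one_mul]
      exact hn)), mul_zero]
  · have h1 := (abs_le.1 hcmp4).1
    have h2 : c₀ ≤ It (fun _ => m) 4 (FP (fun _ => cls 1 0) (fun _ => P') (fun _ _ => 1) 4) := hlow4
    push_cast at h1
    nlinarith

theorem ind_shift (V : Set ℤ) (s t : ℤ) : sh s (ind V) t = ind V (t + s) := rfl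

/-- the mean of a class -/
theorem m_cls_shift {m : (ℤ →ᵇ ℝ) →ₗ[ℝ] ℝ} (hm : IsMean m) (U : Set ℤ) (r s u : ℤ) (h : (3 : ℤ) ∣ r - s - u) :
    m (cls 3 r * sh (-u) (ind U)) = m (cls 3 s * ind U) := by
  have e : cls 3 r * sh (-u) (ind U) = sh (-u) (cls 3 s * ind U) := by
    ext n
    rw [BoundedContinuousFunction.coe_mul, Pi.mul_apply, sh_apply, sh_apply,
      BoundedContinuousFunction.coe_mul, Pi.mul_apply]
    congr 1
    have e1 : ((3 : ℕ) : ℤ) ∣ n - r ↔ ((3 : ℕ) : ℤ) ∣ n + -u - s := by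
      push_cast
      constructor
      · intro h1
        have : n + -u - s = (n - r) + (r - s - u) := by ring
        rw [this]
        exact dvd_add h1 h
      · intro h1
        have : n - r = (n + -u - s) - (r - s - u) := by ring
        rw [this]
        exact dvd_sub h1 h
    by_cases h2 : ((3 : ℕ) : ℤ) ∣ n - r
    · rw [Pool.Agent.W681.TF.cls_mem h2, Pool.Agent.W681.TF.cls_mem (e1.1 h2)]
    · rw [Pool.Agent.W681.TF.cls_notMem h2, Pool.Agent.W681.TF.cls_notMem (fun h3 => h2 (e1.2 h3))]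
  rw [e, m_sh hm]

theorem claimB {m : (ℤ →ᵇ ℝ) →ₗ[ℝ] ℝ} (hm : IsMean m) (U : Set ℤ) {u v : ℤ} (h : (3 : ℤ) ∣ u - v) :
    2 * m (cls 3 1 * ind U) - 1 / 3 ≤
      m (toB (fun t => cls 3 (u + 1) t * (ind U (t - u) * ind U (t - v)))) := by
  have e1 := m_cls_shift hm U (u + 1) 1 u (by
    have : u + 1 - 1 - u = 0 := by ring
    rw [this]
    exact dvd_zero _)
  have e2 := m_cls_shift hm U (u + 1) 1 v (by
    have : u + 1 - 1 - v = u - v := by ring
    rw [this]
    exact h)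
  have e3 := Pool.Agent.W681.TF.m_cls hm 3 (u + 1) (by norm_num)
  have h4 : m (cls 3 (u + 1) * sh (-u) (ind U) + cls 3 (u + 1) * sh (-v) (ind U) - cls 3 (u + 1)) ≤
      m (toB (fun t => cls 3 (u + 1) t * (ind U (t - u) * ind U (t - v)))) := by
    refine m_mono hm fun t => ?_
    rw [toB_apply (C := 1) (fun t => ?_)]
    · simp only [BoundedContinuousFunction.coe_sub, BoundedContinuousFunction.coe_add, Pi.sub_apply, Pi.add_apply,
        BoundedContinuousFunction.coe_mul, Pi.mul_apply, sh_apply]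
      have a1 := ind_01 {a : ℤ | ((3 : ℕ) : ℤ) ∣ a - (u + 1)} t
      change 0 ≤ cls 3 (u + 1) t ∧ cls 3 (u + 1) t ≤ 1 at a1
      have a2 := ind_01 U (t - u)
      have a3 := ind_01 U (t - v)
      have e4 : t + -u = t - u := by ring
      have e5 : t + -v = t - v := by ring
      rw [e4, e5]
      have a4 : ind U (t - u) + ind U (t - v) - 1 ≤ ind U (t - u) * ind U (t - v) := by nlinarith [a2.2, a3.2]
      nlinarith [mul_le_mul_of_nonneg_left a4 a1.1]
    · have a1 := ind_01 {a : ℤ | ((3 : ℕ) : ℤ) ∣ a - (u + 1)} t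
      change 0 ≤ cls 3 (u + 1) t ∧ cls 3 (u + 1) t ≤ 1 at a1
      exact abs01 (mul01 a1 (mul01 (ind_01 U (t - u)) (ind_01 U (t - v))))
  rw [map_sub, map_add, e1, e2, e3] at h4
  push_cast at h4
  linarith

theorem claimA {m : (ℤ →ᵇ ℝ) →ₗ[ℝ] ℝ} (hm : IsMean m) (U : Set ℤ) {u v w : ℤ} (h : (3 : ℤ) ∣ u - v)
    (h' : (3 : ℤ) ∣ w - (u + 1)) :
    2 * m (cls 3 2 * ind U) + m (cls 3 1 * ind U) - 2 / 3 ≤
      m (toB (fun t => cls 3 (u + 2) t * (ind U (t - u) * (ind U (t - v) * ind U (t - w))))) := by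
  have e1 := m_cls_shift hm U (u + 2) 2 u (by
    have : u + 2 - 2 - u = 0 := by ring
    rw [this]
    exact dvd_zero _)
  have e2 := m_cls_shift hm U (u + 2) 2 v (by
    have : u + 2 - 2 - v = u - v := by ring
    rw [this]
    exact h)
  have e2' := m_cls_shift hm U (u + 2) 1 w (by
    have : u + 2 - 1 - w = -(w - (u + 1)) := by ring
    rw [this]
    exact (dvd_neg).2 h')
  have e3 := Pool.Agent.W681.TF.m_cls hm 3 (u + 2) (by norm_num)
  have h4 : m (cls 3 (u + 2) * sh (-u) (ind U) + cls 3 (u + 2) * sh (-v) (ind U) +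
      cls 3 (u + 2) * sh (-w) (ind U) - (2 : ℝ) • cls 3 (u + 2)) ≤
      m (toB (fun t => cls 3 (u + 2) t * (ind U (t - u) * (ind U (t - v) * ind U (t - w))))) := by
    refine m_mono hm fun t => ?_
    rw [toB_apply (C := 1) (fun t => ?_)]
    · simp only [BoundedContinuousFunction.coe_sub, BoundedContinuousFunction.coe_add, Pi.sub_apply, Pi.add_apply,
        BoundedContinuousFunction.coe_mul, Pi.mul_apply, sh_apply, BoundedContinuousFunction.coe_smul, smul_eq_mul]
      have a1 := ind_01 {a : ℤ | ((3 : ℕ) : ℤ) ∣ a - (u + 2)} t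
      change 0 ≤ cls 3 (u + 2) t ∧ cls 3 (u + 2) t ≤ 1 at a1
      have a2 := ind_01 U (t - u)
      have a3 := ind_01 U (t - v)
      have a5 := ind_01 U (t - w)
      have e4 : t + -u = t - u := by ring
      have e5 : t + -v = t - v := by ring
      have e6 : t + -w = t - w := by ring
      rw [e4, e5, e6]
      have a4 : ind U (t - v) + ind U (t - w) - 1 ≤ ind U (t - v) * ind U (t - w) := by nlinarith [a3.2, a5.2]
      have a7 := mul01 a3 a5
      have a6 : ind U (t - u) + ind U (t - v) * ind U (t - w) - 1 ≤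
          ind U (t - u) * (ind U (t - v) * ind U (t - w)) := by nlinarith [a2.2, a7.2]
      have a8 : ind U (t - u) + ind U (t - v) + ind U (t - w) - 2 ≤
          ind U (t - u) * (ind U (t - v) * ind U (t - w)) := by linarith
      nlinarith [mul_le_mul_of_nonneg_left a8 a1.1]
    · have a1 := ind_01 {a : ℤ | ((3 : ℕ) : ℤ) ∣ a - (u + 2)} t
      change 0 ≤ cls 3 (u + 2) t ∧ cls 3 (u + 2) t ≤ 1 at a1
      exact abs01 (mul01 a1 (mul01 (ind_01 U (t - u)) (mul01 (ind_01 U (t - v)) (ind_01 U (t - w)))))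
  rw [map_sub, map_add, map_add, map_smul, e1, e2, e2', e3, smul_eq_mul] at h4
  push_cast at h4
  linarith

end Pool.Agent.Helper6.Gaps
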