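import Pool.Graph.R_seed8.W142.TF.All
import Pool.Graph.R_seed8.W863.TF.Net

set_option autoImplicit false
open Filter Topology Finset
open scoped BoundedContinuousFunction

/-! A period of a trigonometric polynomial and of the residue classes modulo `3` up to a small error; its mean
is given by the average over a period. -/

namespace Pool.Agent.Helper6.Gaps

open Pool.Agent.W634.BQ Pool.Agent.W505.BQ Pool.Agent.W27.FB Pool.Agent.W142.TF

theorem sum_app {ι : Type*} (s : Finset ι) (f : ι → (ℤ →ᵇ ℝ)) (x : ℤ) :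
    (∑ i ∈ s, f i) x = ∑ i ∈ s, f i x := by
  rw [BoundedContinuousFunction.coe_sum, Finset.sum_apply]

/-- the sum over a window is determined up to a small error by the mean -/
theorem window {f : ℤ →ᵇ ℝ} (hf : ∀ n, 0 ≤ f n ∧ f n ≤ 1) {δ : ℝ} {F : Finset ℤ}
    (hF : ∀ x : ℤ, ∃ s ∈ F, ∀ n : ℤ, |f (n + x) - f (n + s)| ≤ δ) {N B : ℕ} (hB : ∀ s ∈ F, s.natAbs ≤ B)
    (hN : (2 * B : ℝ) ≤ δ * N) {m : (ℤ →ᵇ ℝ) →ₗ[ℝ] ℝ} (hm : IsMean m) :
    |∑ z ∈ range N, f z - N * m f| ≤ 3 * δ * N := by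
  -- two windows close to each other
  have h1 : ∀ s : ℕ, |∑ z ∈ range N, f ((z : ℤ) + s) - ∑ z ∈ range N, f z| ≤ s := by
    intro s
    induction s with
    | zero => simp
    | succ s ih =>
      have h2 : ∑ z ∈ range N, f ((z : ℤ) + (s + 1 : ℕ)) = ∑ z ∈ range N, f (((z + 1 : ℕ) : ℤ) + s) := by
        refine sum_congr rfl fun z _ => ?_
        congr 1
        push_cast
        ring
      have h3 := sum_range_succ' (fun z : ℕ => f ((z : ℤ) + s)) N
      rw [sum_range_succ] at h3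
      have h4 : |∑ z ∈ range N, f (((z + 1 : ℕ) : ℤ) + s) - ∑ z ∈ range N, f ((z : ℤ) + s)| ≤ 1 := by
        have h5 : ∑ z ∈ range N, f (((z + 1 : ℕ) : ℤ) + s) - ∑ z ∈ range N, f ((z : ℤ) + s) =
            f ((N : ℤ) + s) - f (((0 : ℕ) : ℤ) + s) := by linarith
        rw [h5, abs_le]
        have h6 := hf ((N : ℤ) + s)
        have h7 := hf (((0 : ℕ) : ℤ) + s)
        constructor <;> linarith [h6.1, h6.2, h7.1, h7.2]
      rw [h2]
      have h5 := abs_sub_le (∑ z ∈ range N, f (((z + 1 : ℕ) : ℤ) + s)) (∑ z ∈ range N, f ((z : ℤ) + s))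
        (∑ z ∈ range N, f z)
      push_cast at h4 h5 ih ⊢
      linarith
  have h2 : ∀ (x : ℤ), |∑ z ∈ range N, f ((z : ℤ) + x) - ∑ z ∈ range N, f z| ≤ 3 * δ * N := by
    intro x
    obtain ⟨s, hs, hx⟩ := hF x
    have h3 : |∑ z ∈ range N, f ((z : ℤ) + x) - ∑ z ∈ range N, f ((z : ℤ) + s)| ≤ N * δ := by
      rw [← sum_sub_distrib]
      refine (abs_sum_le_sum_abs _ _).trans ?_
      have := sum_le_card_nsmul (range N) (fun z : ℕ => |f ((z : ℤ) + x) - f ((z : ℤ) + s)|) δ (fun z _ => hx z)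
      rwa [card_range, nsmul_eq_mul] at this
    have hδ0 : 0 ≤ δ * N := le_trans (by positivity) hN
    have h4 : |∑ z ∈ range N, f ((z : ℤ) + s) - ∑ z ∈ range N, f z| ≤ 2 * B := by
      have hsB := hB s hs
      rcases le_total 0 s with h | h
      · have h5 := h1 s.natAbs
        rw [Int.natAbs_of_nonneg h] at h5
        have : (s.natAbs : ℝ) ≤ B := by exact_mod_cast hsB
        have hB0 : (0 : ℝ) ≤ B := Nat.cast_nonneg _
        linarith
      · -- a negative shift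
        have h5 : ∀ t : ℕ, |∑ z ∈ range N, f ((z : ℤ) - t) - ∑ z ∈ range N, f z| ≤ t := by
          intro t
          induction t with
          | zero => simp
          | succ t ih =>
            have h3' := sum_range_succ' (fun z : ℕ => f ((z : ℤ) - (t + 1 : ℕ))) N
            rw [sum_range_succ] at h3'
            have h2' : ∑ z ∈ range N, f (((z + 1 : ℕ) : ℤ) - (t + 1 : ℕ)) = ∑ z ∈ range N, f ((z : ℤ) - t) := by
              refine sum_congr rfl fun z _ => ?_
              congr 1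
              push_cast
              ring
            have h4 : |∑ z ∈ range N, f ((z : ℤ) - (t + 1 : ℕ)) - ∑ z ∈ range N, f ((z : ℤ) - t)| ≤ 1 := by
              have h5 : ∑ z ∈ range N, f ((z : ℤ) - (t + 1 : ℕ)) - ∑ z ∈ range N, f ((z : ℤ) - t) =
                  f (((0 : ℕ) : ℤ) - (t + 1 : ℕ)) - f ((N : ℤ) - (t + 1 : ℕ)) := by linarith
              rw [h5, abs_le]
              have h6 := hf ((N : ℤ) - (t + 1 : ℕ))
              have h7 := hf (((0 : ℕ) : ℤ) - (t + 1 : ℕ))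
              constructor <;> linarith [h6.1, h6.2, h7.1, h7.2]
            have h5 := abs_sub_le (∑ z ∈ range N, f ((z : ℤ) - (t + 1 : ℕ))) (∑ z ∈ range N, f ((z : ℤ) - t))
              (∑ z ∈ range N, f z)
            push_cast at h4 h5 ih ⊢
            linarith
        have h6 := h5 s.natAbs
        have h7 : ((s.natAbs : ℕ) : ℤ) = -s := by omega
        have h8 : ∑ z ∈ range N, f ((z : ℤ) - (s.natAbs : ℕ)) = ∑ z ∈ range N, f ((z : ℤ) + s) := by
          refine sum_congr rfl fun z _ => ?_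
          rw [h7]
          congr 1
          ring
        rw [h8] at h6
        have : (s.natAbs : ℝ) ≤ B := by exact_mod_cast hsB
        have hB0 : (0 : ℝ) ≤ B := Nat.cast_nonneg _
        linarith
    have h5 := abs_sub_le (∑ z ∈ range N, f ((z : ℤ) + x)) (∑ z ∈ range N, f ((z : ℤ) + s))
      (∑ z ∈ range N, f z)
    linarith
  -- the mean
  have h3 : m (∑ z ∈ range N, sh (z : ℤ) f) = N * m f := by
    rw [map_sum, sum_congr rfl (fun (z : ℕ) _ => m_sh hm (z : ℤ) f), sum_const, card_range, nsmul_eq_mul]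
  have h4 : ∀ x : ℤ, |(∑ z ∈ range N, sh (z : ℤ) f) x - ∑ z ∈ range N, f z| ≤ 3 * δ * N := by
    intro x
    have h5 := h2 x
    rw [sum_app]
    simp only [sh_apply]
    have h6 : ∑ z ∈ range N, f (x + (z : ℤ)) = ∑ z ∈ range N, f ((z : ℤ) + x) :=
      sum_congr rfl fun z _ => by rw [add_comm]
    rw [h6]
    exact h5
  have h5 : m (∑ z ∈ range N, sh (z : ℤ) f) ≤ ∑ z ∈ range N, f z + 3 * δ * N := by
    rw [← m_const hm (∑ z ∈ range N, f z + 3 * δ * N)]
    refine m_mono hm fun x => ?_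
    have := (abs_le.1 (h4 x)).2
    simp only [BoundedContinuousFunction.coe_smul, BoundedContinuousFunction.coe_one, Pi.one_apply, smul_eq_mul,
      mul_one]
    linarith
  have h6 : ∑ z ∈ range N, f z - 3 * δ * N ≤ m (∑ z ∈ range N, sh (z : ℤ) f) := by
    rw [← m_const hm (∑ z ∈ range N, f z - 3 * δ * N)]
    refine m_mono hm fun x => ?_
    have := (abs_le.1 (h4 x)).1
    simp only [BoundedContinuousFunction.coe_smul, BoundedContinuousFunction.coe_one, Pi.one_apply, smul_eq_mul,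
      mul_one]
    linarith
  rw [h3] at h5 h6
  rw [abs_le]
  constructor <;> linarith

/-- a period up to a small error -/
structure Period (P : ℤ →ᵇ ℝ) (δ : ℝ) (N : ℕ) (t : ℤ → ℕ) : Prop where
  pos : 1 ≤ N
  three : 3 ∣ N
  lt : ∀ x, t x < N
  net : ∀ x n : ℤ, |P (n + x) - P (n + t x)| ≤ δ
  per : ∀ n : ℤ, |P (n + N) - P n| ≤ δ
  mean : ∀ m : (ℤ →ᵇ ℝ) →ₗ[ℝ] ℝ, IsMean m → |∑ z ∈ range N, P z - N * m P| ≤ δ * N
  mean3 : ∀ m : (ℤ →ᵇ ℝ) →ₗ[ℝ] ℝ, IsMean m →
    |∑ z ∈ range N, (cls 3 0 * P) z - N * m (cls 3 0 * P)| ≤ δ * N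

theorem period {P : ℤ →ᵇ ℝ} (hP : co P ∈ Trig) (h01 : ∀ n, 0 ≤ P n ∧ P n ≤ 1) {δ : ℝ} (hδ : 0 < δ) :
    ∃ (N : ℕ) (t : ℤ → ℕ), Period P δ N t := by
  classical
  have hcl : co (cls 3 0) ∈ Trig := (Pool.Agent.W681.TF.tr01_cls 3 0 (by norm_num)).1
  have hc01 := Pool.Agent.W681.TF.cls_01 3 0
  obtain ⟨Q, hQ⟩ : ∃ Q : ℤ →ᵇ ℂ, Q = co P + Complex.I • co (cls 3 0) := ⟨_, rfl⟩
  have hQT : Q ∈ Trig := by
    rw [hQ]
    exact Trig.add_mem hP (Trig.smul_mem _ hcl)
  have hre : ∀ n, (Q n).re = P n := by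
    intro n
    rw [hQ]
    simp
  have him : ∀ n, (Q n).im = cls 3 0 n := by
    intro n
    rw [hQ]
    simp
  obtain ⟨F, hF⟩ := Pool.Agent.W863.TF.net Q hQT (δ / 12) (by positivity)
  have hFP : ∀ x : ℤ, ∃ s ∈ F, (∀ n : ℤ, |P (n + x) - P (n + s)| ≤ δ / 12) ∧
      ∀ n : ℤ, |cls 3 0 (n + x) - cls 3 0 (n + s)| ≤ δ / 12 := by
    intro x
    obtain ⟨s, hs, h⟩ := hF x
    refine ⟨s, hs, fun n => ?_, fun n => ?_⟩
    · have h1 := (Complex.abs_re_le_norm (Q (n + x) - Q (n + s))).trans (h n)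
      rwa [Complex.sub_re, hre, hre] at h1
    · have h1 := (Complex.abs_im_le_norm (Q (n + x) - Q (n + s))).trans (h n)
      rwa [Complex.sub_im, him, him] at h1
  choose σ hσF hσ1 hσ2 using hFP
  obtain ⟨B, hB⟩ : ∃ B : ℕ, ∀ s ∈ F, s.natAbs ≤ B :=
    ⟨∑ s ∈ F, s.natAbs, fun s hs => single_le_sum (f := fun s : ℤ => s.natAbs) (fun _ _ => Nat.zero_le _) hs⟩
  -- a long period
  obtain ⟨M, hM⟩ : ∃ M : ℕ, M = 3 * (B + 1 + ⌈2 * B / (δ / 6)⌉₊) := ⟨_, rfl⟩
  obtain ⟨i, j, hij, hσij⟩ : ∃ i j : ℕ, i < j ∧ σ ((i : ℤ) * M) = σ ((j : ℤ) * M) := by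
    have hni : ¬ Function.Injective (fun i : ℕ => (⟨σ ((i : ℤ) * M), hσF _⟩ : F)) :=
      not_injective_infinite_finite _
    rw [Function.Injective] at hni
    push Not at hni
    obtain ⟨a, b, hab, hne⟩ := hni
    have h1 : σ ((a : ℤ) * M) = σ ((b : ℤ) * M) := by simpa using hab
    rcases lt_or_gt_of_ne hne with h | h
    · exact ⟨a, b, h, h1⟩
    · exact ⟨b, a, h, h1.symm⟩
  obtain ⟨N, hN⟩ : ∃ N : ℕ, N = (j - i) * M := ⟨_, rfl⟩
  have hNM : M ≤ N := by
    rw [hN]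
    exact Nat.le_mul_of_pos_left _ (by omega)
  have hNz : (N : ℤ) = (j : ℤ) * M - (i : ℤ) * M := by
    rw [hN, Nat.cast_mul, Nat.cast_sub hij.le]
    ring
  have hper : ∀ n : ℤ, |P (n + N) - P n| ≤ δ / 6 := by
    intro n
    have h1 := hσ1 ((j : ℤ) * M) (n - (i : ℤ) * M)
    have h2 := hσ1 ((i : ℤ) * M) (n - (i : ℤ) * M)
    rw [← hσij] at h1
    have e1 : n - (i : ℤ) * M + (j : ℤ) * M = n + N := by rw [hNz]; ring
    have e2 : n - (i : ℤ) * M + (i : ℤ) * M = n := by ring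
    rw [e1] at h1
    rw [e2] at h2
    have h3 := abs_le.1 h1
    have h4 := abs_le.1 h2
    rw [abs_le]
    constructor <;> linarith [h3.1, h3.2, h4.1, h4.2]
  have hBN : B < N := by omega
  have h2B : (2 * B : ℝ) ≤ δ / 6 * N := by
    have h1 : (⌈2 * B / (δ / 6)⌉₊ : ℝ) ≤ N := by
      have : ⌈2 * B / (δ / 6)⌉₊ ≤ N := by omega
      exact_mod_cast this
    have h2 := (Nat.le_ceil (2 * (B : ℝ) / (δ / 6))).trans h1
    rw [div_le_iff₀ (by positivity)] at h2
    linarith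
  refine ⟨N, fun x => if 0 ≤ σ x then (σ x).toNat else (σ x + N).toNat, ?_, ?_, ?_, ?_, ?_, ?_, ?_⟩
  · omega
  · rw [hN, hM]
    exact Dvd.dvd.mul_left (dvd_mul_right 3 _) _
  · intro x
    have h1 := hB _ (hσF x)
    show (if 0 ≤ σ x then (σ x).toNat else (σ x + N).toNat) < N
    split_ifs with h
    · omega
    · omega
  · intro x n
    have h1 := hσ1 x n
    have hb := hB _ (hσF x)
    show |P (n + x) - P (n + ((if 0 ≤ σ x then (σ x).toNat else (σ x + N).toNat : ℕ) : ℤ))| ≤ δ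
    split_ifs with h
    · rw [Int.toNat_of_nonneg h]
      linarith
    · rw [Int.toNat_of_nonneg (by omega)]
      have h2 := hper (n + σ x)
      have e : n + (σ x + N) = n + σ x + N := by ring
      rw [e]
      have h3 := abs_le.1 h1
      have h4 := abs_le.1 h2
      rw [abs_le]
      constructor <;> linarith [h3.1, h3.2, h4.1, h4.2]
  · intro n
    have := hper n
    linarith
  · intro m hm
    have h1 := window (δ := δ / 6) h01 (F := F) (fun x => ⟨σ x, hσF x, fun n => (hσ1 x n).trans (by linarith)⟩) hB h2B hm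
    refine h1.trans ?_
    have : (0 : ℝ) ≤ δ * N := by positivity
    linarith
  · intro m hm
    have h1 := window (δ := δ / 6) (f := cls 3 0 * P) (fun n => by
        rw [BoundedContinuousFunction.coe_mul, Pi.mul_apply]
        exact ⟨mul_nonneg (hc01 n).1 (h01 n).1, mul_le_one₀ (hc01 n).2 (h01 n).1 (h01 n).2⟩)
      (F := F) (fun x => ⟨σ x, hσF x, fun n => by
        rw [BoundedContinuousFunction.coe_mul, Pi.mul_apply, Pi.mul_apply]
        have e : cls 3 0 (n + x) * P (n + x) - cls 3 0 (n + σ x) * P (n + σ x) =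
            (cls 3 0 (n + x) - cls 3 0 (n + σ x)) * P (n + x) +
              cls 3 0 (n + σ x) * (P (n + x) - P (n + σ x)) := by ring
        rw [e]
        refine (abs_add_le _ _).trans ?_
        rw [abs_mul, abs_mul, abs_of_nonneg (h01 (n + x)).1, abs_of_nonneg (hc01 (n + σ x)).1]
        have h2 := hσ1 x n
        have h3 := hσ2 x n
        have h4 := mul_le_mul h3 (h01 (n + x)).2 (h01 (n + x)).1 (by positivity : (0 : ℝ) ≤ δ / 12)
        have h5 := mul_le_mul (hc01 (n + σ x)).2 h2 (abs_nonneg _) zero_le_one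
        linarith⟩) hB h2B hm
    refine h1.trans ?_
    have : (0 : ℝ) ≤ δ * N := by positivity
    linarith

end Pool.Agent.Helper6.Gaps
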